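import Pool.Agent.Zk96.SD.Sat
import Pool.Agent.H622R2.Base
import Pool.Agent.H601R2.PP

/-!
# Strongly `2`-divisible graphs: the graph of an `∃∀∃`-formula
-/

namespace Pool.Agent.Zk96.SD

open Pool.Agent.H622R2 (GoodOn StronglyDivisible matGraph mat stronglyDivisible_two_iff matIso
  labGraph)
open Pool.Agent.NPC

/-- The instances: the numbers of the variables of the three blocks, in unary, and a list of
clauses. -/
abbrev QI := List Unit × List Unit × List Unit × List (List (Bool × ℕ))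

/-- The assignment composed of three assignments. -/
def mix3 (s t : ℕ) (σ τ ζ : ℕ → Bool) (v : ℕ) : Bool :=
  if v < s then σ v else if v < s + t then τ v else ζ v

/-- Truth of a conjunctive normal form; the literal `(b, v)` holds iff `v` has the value `b`. -/
def Tr (cs : List (List (Bool × ℕ))) (a : ℕ → Bool) : Prop := ∀ c ∈ cs, ∃ l ∈ c, a l.2 = l.1

/-- Truth of the quantified formula. -/
def EAE (I : QI) : Prop :=
  ∃ σ : ℕ → Bool, ∀ τ : ℕ → Bool, ∃ ζ : ℕ → Bool, Tr I.2.2.2 (mix3 I.1.length I.2.1.length σ τ ζ)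

/-- The number of variables. -/
def nv (I : QI) : ℕ := I.1.length + I.2.1.length + I.2.2.1.length

/-- The promise: the range of the variables. -/
def EAEPr (I : QI) : Prop := ∀ c ∈ I.2.2.2, ∀ l ∈ c, l.2 < nv I

/-- Clauses which are not tautological. -/
def nontaut (c : List (Bool × ℕ)) : Bool := c.all fun l => !decide ((!l.1, l.2) ∈ c)

/-- The clauses which are not tautological. -/
def cl (I : QI) : List (List (Bool × ℕ)) := I.2.2.2.filter nontaut

theorem nontaut_iff (c : List (Bool × ℕ)) : nontaut c = true ↔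
    ∀ v, ¬ ((true, v) ∈ c ∧ (false, v) ∈ c) := by
  unfold nontaut
  rw [List.all_eq_true]
  constructor
  · rintro h v ⟨h1, h2⟩
    have := h _ h1
    simp [h2] at this
  · rintro h ⟨b, v⟩ hl
    simp only [Bool.not_eq_true', decide_eq_false_iff_not]
    intro h2
    cases b
    · exact h v ⟨h2, hl⟩
    · exact h v ⟨hl, h2⟩

theorem tr_cl (I : QI) (a : ℕ → Bool) : Tr (cl I) a ↔ Tr I.2.2.2 a := by
  constructor
  · intro h c hc
    by_cases hn : nontaut c = true
    · exact h c (List.mem_filter.2 ⟨hc, hn⟩)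
    · rw [nontaut_iff] at hn
      push Not at hn
      obtain ⟨v, h1, h2⟩ := hn
      cases hv : a v
      · exact ⟨_, h2, hv⟩
      · exact ⟨_, h1, hv⟩
  · intro h c hc
    exact h c (List.mem_filter.1 hc).1

/-- The last position. -/
def NN (I : QI) : ℕ := 2 * (nv I + (cl I).length + 1)

/-- The types of the positions. -/
def tyI (I : QI) (p : ℕ) : ℕ :=
  if p % 2 = 0 then 0 else if p / 2 < I.1.length then 1
  else if p / 2 < I.1.length + I.2.1.length then 2
  else if p / 2 < nv I then 3 else 0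

/-- The blocked literal vertices. -/
def BlI (I : QI) (q : ℕ) (x : ℕ × ℕ) : Prop :=
  q < NN I ∧ ((q = NN I - 1 ∧ x.1 = 0) ∨
    (q ≠ NN I - 1 ∧ (q % 2 = 1 ∧ nv I ≤ q / 2) ∧ x.1 % 2 = 1 ∧ x.1 / 2 < nv I ∧ x.2 ≤ 1 ∧
      (decide (x.2 = 0), x.1 / 2) ∈ (cl I).getD (q / 2 - nv I) []) ∨
    (q ≠ NN I - 1 ∧ ¬ (q % 2 = 1 ∧ nv I ≤ q / 2) ∧ x.1 = NN I))

theorem tyI_even {I : QI} {p : ℕ} (h : p % 2 = 0) : tyI I p = 0 := by
  unfold tyI
  rw [if_pos h]

theorem inst (I : QI) : Inst (NN I) (tyI I) (BlI I) where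
  ty_le := by
    intro p
    unfold tyI
    split_ifs <;> omega
  dummy := by
    intro q _
    rcases Nat.mod_two_eq_zero_or_one q with h | h
    · exact Or.inl (tyI_even h)
    · exact Or.inr (tyI_even (by omega))
  own := by
    rintro q x ⟨h0, ⟨h1, h2⟩ | ⟨h1, h2, h3, h4, h5, h6⟩ | ⟨h1, h2, h3⟩⟩
    · unfold NN at *
      omega
    · omega
    · unfold NN at *
      omega
  yb := by
    rintro q p a hp ⟨h0, ⟨h1, h2⟩ | ⟨h1, h2, h3, h4, h5, h6⟩ | ⟨h1, h2, h3⟩⟩
    · simp only at h2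
      rw [tyI_even (by omega)] at hp
      omega
    · exact h5
    · simp only at h3
      rw [tyI_even (by unfold NN at h3; omega)] at hp
      omega
  yb2 := by
    rintro q p hp ⟨hb0, hb1⟩
    have hpo : p % 2 = 1 := by
      by_contra h
      rw [tyI_even (by omega)] at hp
      omega
    have hodd : ∀ a, BlI I q (p, a) →
        (decide (a = 0), p / 2) ∈ (cl I).getD (q / 2 - nv I) [] := by
      rintro a ⟨h0, ⟨h1, h2⟩ | ⟨h1, h2, h3, h4, h5, h6⟩ | ⟨h1, h2, h3⟩⟩
      · simp only at h2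
        omega
      · exact h6
      · simp only at h3
        unfold NN at h3
        omega
    have h1 := hodd 0 hb0
    have h2 := hodd 1 hb1
    simp only [decide_true, one_ne_zero, decide_false] at h1 h2
    have h3 : (cl I).getD (q / 2 - nv I) [] ∈ cl I := by
      by_cases hlt : q / 2 - nv I < (cl I).length
      · rw [List.getD_eq_getElem?_getD, List.getElem?_eq_getElem hlt]
        exact List.getElem_mem hlt
      · rw [List.getD_eq_getElem?_getD, List.getElem?_eq_none (by omega)] at h1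
        simp at h1
    have h4 := (List.mem_filter.1 h3).2
    rw [nontaut_iff] at h4
    exact h4 _ ⟨h1, h2⟩
  guard := by
    intro a z haz hz hne
    have key : ∀ q, a ≤ q → q < z → (q % 2 = 0 ∨ z = a + 1) → z < NN I →
        ∀ x : ℕ × ℕ, a ≤ x.1 → x.1 ≤ z → ¬ BlI I q x := by
      rintro q hq1 hq2 hq3 hzN x hx1 hx2 ⟨h0, ⟨h1, h2⟩ | ⟨h1, h2, h3, h4, h5, h6⟩ | ⟨h1, h2, h3⟩⟩
      · unfold NN at *
        omega
      · omega
      · omega
    by_cases hzN : z = NN I
    · refine ⟨NN I - 1, by omega, by omega, ?_⟩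
      rintro x hx1 hx2 ⟨h0, ⟨h1, h2⟩ | ⟨h1, h2, h3, h4, h5, h6⟩ | ⟨h1, h2, h3⟩⟩
      · omega
      · exact h1 rfl
      · exact h1 rfl
    · by_cases hev : a % 2 = 0
      · exact ⟨a, le_rfl, haz, key a le_rfl haz (Or.inl hev) (by omega)⟩
      · by_cases hz1 : z = a + 1
        · exact ⟨a, le_rfl, haz, key a le_rfl haz (Or.inr hz1) (by omega)⟩
        · exact ⟨a + 1, by omega, by omega, key (a + 1) (by omega) (by omega)
            (Or.inl (by omega)) (by omega)⟩

theorem tyI_odd {I : QI} {p : ℕ} (h : p % 2 = 1) (hp : p / 2 < nv I) (σ τ ζ : ℕ → Bool) (a : ℕ)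
    (ha : a ≤ 1) : Sel (tyI I) σ τ ζ (p, a) ↔
      mix3 I.1.length I.2.1.length (fun v => σ (2 * v + 1)) (fun v => τ (2 * v + 1))
        (fun v => ζ (2 * v + 1)) (p / 2) = decide (a = 0) := by
  have h1 : ¬ p % 2 = 0 := by omega
  have h2 : 2 * (p / 2) + 1 = p := by omega
  unfold Sel tyI mix3
  simp only [if_neg h1, h2]
  have ha' : a = 0 ∨ a = 1 := by omega
  by_cases c1 : p / 2 < I.1.length
  · simp only [if_pos c1]
    rcases ha' with rfl | rfl <;> cases σ p <;> simp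
  · simp only [if_neg c1]
    by_cases c2 : p / 2 < I.1.length + I.2.1.length
    · simp only [if_pos c2]
      rcases ha' with rfl | rfl <;> cases τ p <;> simp
    · simp only [if_neg c2, if_pos hp]
      rcases ha' with rfl | rfl <;> cases ζ p <;> simp

/-- Falsity of the formula in terms of the instance. -/
theorem hF_of {I : QI} (h : ¬ EAE I) : ∀ σ : ℕ → Bool, ∃ τ : ℕ → Bool, ∀ ζ : ℕ → Bool,
    ∃ q, q < NN I ∧ ∀ x, BlI I q x → ¬ Sel (tyI I) σ τ ζ x := by
  intro σ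
  unfold EAE at h
  push Not at h
  obtain ⟨τ, hτ⟩ := h (fun v => σ (2 * v + 1))
  refine ⟨fun p => τ (p / 2), fun ζ => ?_⟩
  have h1 := hτ (fun v => ζ (2 * v + 1))
  rw [← tr_cl] at h1
  unfold Tr at h1
  push Not at h1
  obtain ⟨c, hc, hcl⟩ := h1
  obtain ⟨j, hj, rfl⟩ := List.getElem_of_mem hc
  refine ⟨2 * (nv I + j) + 1, by unfold NN; omega, ?_⟩
  have hN : 2 * (nv I + j) + 1 ≠ NN I - 1 := by unfold NN; omega
  have hq1 : (2 * (nv I + j) + 1) / 2 = nv I + j := by omega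
  rintro x ⟨h0, ⟨h1, h2⟩ | ⟨h1, h2, h3, h4, h5, h6⟩ | ⟨h1, h2, h3⟩⟩ hsel
  · exact hN h1
  · rw [hq1, Nat.add_sub_cancel_left, List.getD_eq_getElem?_getD,
      List.getElem?_eq_getElem hj] at h6
    simp only [Option.getD_some] at h6
    have h7 := hcl _ h6
    apply h7
    have h8 := (tyI_odd (I := I) h3 h4 σ (fun p => τ (p / 2)) ζ x.2 h5).1 hsel
    have e3 : ∀ v : ℕ, (2 * v + 1) / 2 = v := fun v => by omega
    rw [← h8]
    simp only [mix3, e3]
  · exact h2 (by omega)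

/-- Truth of the formula in terms of the instance. -/
theorem hS_of {I : QI} (hpr : EAEPr I) (h : EAE I) : ∃ σ : ℕ → Bool, ∀ τ : ℕ → Bool,
    ∃ ζ : ℕ → Bool, ∀ q, q < NN I →
      ∃ x : ℕ × ℕ, x.1 ≤ NN I ∧ okV (tyI I x.1) x.2 ∧ BlI I q x ∧ Sel (tyI I) σ τ ζ x := by
  obtain ⟨σ, hσ⟩ := h
  refine ⟨fun p => σ (p / 2), fun τ => ?_⟩
  obtain ⟨ζ, hζ⟩ := hσ (fun v => τ (2 * v + 1))
  refine ⟨fun p => ζ (p / 2), fun q hq => ?_⟩
  rw [← tr_cl] at hζ
  by_cases h1 : q = NN I - 1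
  · exact ⟨(0, 0), by omega, Or.inl ⟨tyI_even (by omega), rfl⟩, ⟨hq, Or.inl ⟨h1, rfl⟩⟩,
      Or.inl ⟨tyI_even (by omega), rfl⟩⟩
  by_cases h2 : q % 2 = 1 ∧ nv I ≤ q / 2
  · have hj : q / 2 - nv I < (cl I).length := by
      unfold NN at h1 hq
      omega
    obtain ⟨l, hl, hl2⟩ := hζ _ (List.getElem_mem hj)
    have hlv : l.2 < nv I := hpr _ (List.mem_filter.1 (List.getElem_mem hj)).1 l hl
    have e1 : (2 * l.2 + 1) % 2 = 1 := by omega
    have e2 : (2 * l.2 + 1) / 2 = l.2 := by omega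
    have ha : (if l.1 then 0 else 1) ≤ 1 := by split_ifs <;> omega
    have hd : decide ((if l.1 then 0 else 1) = 0) = l.1 := by cases l.1 <;> simp
    refine ⟨(2 * l.2 + 1, if l.1 then 0 else 1), ?_, ?_, ⟨hq, Or.inr (Or.inl ⟨h1, h2, e1, ?_,
      ha, ?_⟩)⟩, ?_⟩
    · simp only
      unfold NN
      omega
    · have hne : ¬ (2 * l.2 + 1) % 2 = 0 := by omega
      simp only [tyI, if_neg hne, e2, okV]
      split_ifs <;> simp
    · rw [e2]; exact hlv
    · simp only [e2, hd]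
      rw [List.getD_eq_getElem?_getD, List.getElem?_eq_getElem hj]
      exact hl
    · rw [tyI_odd e1 (by rw [e2]; exact hlv) _ _ _ _ ha, e2, hd, ← hl2]
      simp only [mix3, e2]
  · refine ⟨(NN I, 0), le_rfl, Or.inl ⟨tyI_even (by unfold NN; omega), rfl⟩, ⟨hq, Or.inr (Or.inr
      ⟨h1, h2, rfl⟩)⟩, Or.inl ⟨tyI_even (by unfold NN; omega), rfl⟩⟩

end Pool.Agent.Zk96.SD
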