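import Pool.Agent.H622R2.StrongDiv

/-!
# Strongly `2`-divisible graphs: the graph of a quantified formula

Vertices are labelled by quadruples (kind, position, variant, connector).
-/

namespace Pool.Agent.Zk96.SD

open Pool.Agent.H622R2 (GoodOn)

/-- Labels of vertices. -/
abbrev U := ℕ × ℕ × ℕ × ℕ

/-- The literal vertex at a position, with a variant. -/
def vL (x : ℕ × ℕ) : U := (0, x.1, x.2, 0)
/-- The connector between the positions `q` and `q + 1`. -/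
def vC (q : ℕ) : U := (1, q, 0, 0)
/-- The first inner vertex of the link between the vertex `x` and the connector `q`. -/
def vA (x : ℕ × ℕ) (q : ℕ) : U := (2, x.1, x.2, q)
/-- The second inner vertex of the link between the vertex `x` and the connector `q`. -/
def vB (x : ℕ × ℕ) (q : ℕ) : U := (3, x.1, x.2, q)
/-- The first inner vertex of the direct link at position `p`. -/
def vM (p : ℕ) : U := (4, p, 0, 0)
/-- The second inner vertex of the direct link at position `p`. -/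
def vN (p : ℕ) : U := (5, p, 0, 0)

/-- Half of the adjacency inside a block of type `2`. -/
def E4 (a b : ℕ) : Prop := (a = 0 ∧ b = 1) ∨ (a = 0 ∧ b = 2) ∨ (a = 1 ∧ b = 3)

instance (a b : ℕ) : Decidable (E4 a b) :=
  inferInstanceAs (Decidable ((a = 0 ∧ b = 1) ∨ (a = 0 ∧ b = 2) ∨ (a = 1 ∧ b = 3)))

/-- Half of the adjacency of the labels. -/
def Half (ty : ℕ → ℕ) (Bl : ℕ → ℕ × ℕ → Prop) (u v : U) : Prop :=
  (u.1 = 0 ∧ v.1 = 0 ∧ (u.2.1 ≠ v.2.1 ∨ (ty u.2.1 = 2 ∧ E4 u.2.2.1 v.2.2.1))) ∨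
  (u.1 = 0 ∧ v.1 = 1 ∧ ¬ Bl v.2.1 (u.2.1, u.2.2.1)) ∨
  (u.1 = 0 ∧ v.1 = 2 ∧ u.2.1 = v.2.1 ∧ (u.2.2.1 = v.2.2.1 ∨ ty u.2.1 = 1)) ∨
  (u.1 = 0 ∧ v.1 = 3 ∧ u.2.1 = v.2.1 ∧ ty u.2.1 = 1 ∧ u.2.2.1 ≠ v.2.2.1) ∨
  (u.1 = 0 ∧ v.1 = 4 ∧ u.2.1 = v.2.1 ∧ u.2.2.1 = 0) ∨
  (u.1 = 0 ∧ v.1 = 5 ∧ u.2.1 = v.2.1 ∧ u.2.2.1 = 1) ∨
  (u.1 = 1 ∧ v.1 = 3 ∧ u.2.1 = v.2.2.2) ∨
  (u.1 = 2 ∧ v.1 = 3 ∧ u.2 = v.2) ∨
  (u.1 = 4 ∧ v.1 = 5 ∧ u.2.1 = v.2.1)

/-- Adjacency of the labels. -/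
def R (ty : ℕ → ℕ) (Bl : ℕ → ℕ × ℕ → Prop) (u v : U) : Prop := Half ty Bl u v ∨ Half ty Bl v u

variable {N : ℕ} {ty : ℕ → ℕ} {Bl : ℕ → ℕ × ℕ → Prop}

theorem R_symm {u v : U} (h : R ty Bl u v) : R ty Bl v u := h.symm

/-- Adjacency of literal vertices. -/
def RL (ty : ℕ → ℕ) (x y : ℕ × ℕ) : Prop :=
  x.1 ≠ y.1 ∨ (ty x.1 = 2 ∧ x.1 = y.1 ∧ (E4 x.2 y.2 ∨ E4 y.2 x.2))

theorem R_LL (x y : ℕ × ℕ) : R ty Bl (vL x) (vL y) ↔ RL ty x y := by
  simp only [R, Half, vL, RL]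
  simp only [true_and, false_and, or_false, OfNat.zero_ne_ofNat, zero_ne_one]
  constructor
  · rintro ((h | ⟨h1, h2⟩) | (h | ⟨h1, h2⟩))
    · exact Or.inl h
    · by_cases h : x.1 = y.1
      · exact Or.inr ⟨h1, h, Or.inl h2⟩
      · exact Or.inl h
    · exact Or.inl (Ne.symm h)
    · by_cases h : x.1 = y.1
      · exact Or.inr ⟨by rw [h]; exact h1, h, Or.inr h2⟩
      · exact Or.inl h
  · rintro (h | ⟨h1, h2, h3 | h3⟩)
    · exact Or.inl (Or.inl h)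
    · exact Or.inl (Or.inr ⟨h1, h3⟩)
    · exact Or.inr (Or.inr ⟨by rw [← h2]; exact h1, h3⟩)

theorem R_LC (x : ℕ × ℕ) (q : ℕ) : R ty Bl (vL x) (vC q) ↔ ¬ Bl q x := by
  simp [R, Half, vL, vC]

theorem R_LA (x y : ℕ × ℕ) (q : ℕ) : R ty Bl (vL x) (vA y q) ↔
    x.1 = y.1 ∧ (x.2 = y.2 ∨ ty x.1 = 1) := by
  simp [R, Half, vL, vA]

theorem R_LB (x y : ℕ × ℕ) (q : ℕ) : R ty Bl (vL x) (vB y q) ↔
    x.1 = y.1 ∧ ty x.1 = 1 ∧ x.2 ≠ y.2 := by
  simp [R, Half, vL, vB]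

theorem R_LM (x : ℕ × ℕ) (p : ℕ) : R ty Bl (vL x) (vM p) ↔ x.1 = p ∧ x.2 = 0 := by
  simp [R, Half, vL, vM]

theorem R_LN (x : ℕ × ℕ) (p : ℕ) : R ty Bl (vL x) (vN p) ↔ x.1 = p ∧ x.2 = 1 := by
  simp [R, Half, vL, vN]

theorem R_CC (q q' : ℕ) : ¬ R ty Bl (vC q) (vC q') := by simp [R, Half, vC]
theorem R_CA (q : ℕ) (x : ℕ × ℕ) (q' : ℕ) : ¬ R ty Bl (vC q) (vA x q') := by
  simp [R, Half, vC, vA]
theorem R_CB (q : ℕ) (x : ℕ × ℕ) (q' : ℕ) : R ty Bl (vC q) (vB x q') ↔ q = q' := by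
  simp [R, Half, vC, vB]
theorem R_CM (q p : ℕ) : ¬ R ty Bl (vC q) (vM p) := by simp [R, Half, vC, vM]
theorem R_CN (q p : ℕ) : ¬ R ty Bl (vC q) (vN p) := by simp [R, Half, vC, vN]
theorem R_AA (x y : ℕ × ℕ) (q q' : ℕ) : ¬ R ty Bl (vA x q) (vA y q') := by simp [R, Half, vA]
theorem R_AB (x y : ℕ × ℕ) (q q' : ℕ) : R ty Bl (vA x q) (vB y q') ↔ x = y ∧ q = q' := by
  simp only [R, Half, vA, vB]
  simp only [OfNat.ofNat_ne_zero, false_and, true_and, Prod.mk.injEq, OfNat.ofNat_ne_one,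
    false_or, or_false, Nat.reduceEqDiff]
  constructor
  · rintro ⟨h1, h2, h3⟩
    exact ⟨Prod.ext h1 h2, h3⟩
  · rintro ⟨rfl, h⟩
    exact ⟨rfl, rfl, h⟩
theorem R_AM (x : ℕ × ℕ) (q p : ℕ) : ¬ R ty Bl (vA x q) (vM p) := by simp [R, Half, vA, vM]
theorem R_AN (x : ℕ × ℕ) (q p : ℕ) : ¬ R ty Bl (vA x q) (vN p) := by simp [R, Half, vA, vN]
theorem R_BB (x y : ℕ × ℕ) (q q' : ℕ) : ¬ R ty Bl (vB x q) (vB y q') := by simp [R, Half, vB]
theorem R_BM (x : ℕ × ℕ) (q p : ℕ) : ¬ R ty Bl (vB x q) (vM p) := by simp [R, Half, vB, vM]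
theorem R_BN (x : ℕ × ℕ) (q p : ℕ) : ¬ R ty Bl (vB x q) (vN p) := by simp [R, Half, vB, vN]
theorem R_MM (p p' : ℕ) : ¬ R ty Bl (vM p) (vM p') := by simp [R, Half, vM]
theorem R_MN (p p' : ℕ) : R ty Bl (vM p) (vN p') ↔ p = p' := by simp [R, Half, vM, vN]
theorem R_NN (p p' : ℕ) : ¬ R ty Bl (vN p) (vN p') := by simp [R, Half, vN]

theorem vL_inj {x y : ℕ × ℕ} : vL x = vL y ↔ x = y := by
  simp [vL, Prod.ext_iff]
theorem vC_inj {x y : ℕ} : vC x = vC y ↔ x = y := by simp [vC]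
theorem vA_inj {x y : ℕ × ℕ} {q q' : ℕ} : vA x q = vA y q' ↔ x = y ∧ q = q' := by
  simp [vA, Prod.ext_iff, and_assoc]
theorem vB_inj {x y : ℕ × ℕ} {q q' : ℕ} : vB x q = vB y q' ↔ x = y ∧ q = q' := by
  simp [vB, Prod.ext_iff, and_assoc]
theorem vM_inj {x y : ℕ} : vM x = vM y ↔ x = y := by simp [vM]
theorem vN_inj {x y : ℕ} : vN x = vN y ↔ x = y := by simp [vN]

/-- The variants of the literal vertices. -/
def okV (t a : ℕ) : Prop := (t = 0 ∧ a = 0) ∨ ((t = 1 ∨ t = 3) ∧ a ≤ 1) ∨ (t = 2 ∧ a ≤ 3)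

/-- The variants of the anchors. -/
def anc (t a : ℕ) : Prop := (t = 0 ∧ a = 0) ∨ ((t = 1 ∨ t = 3) ∧ a ≤ 1) ∨
  (t = 2 ∧ (a = 2 ∨ a = 3))

instance (t a : ℕ) : Decidable (okV t a) := inferInstanceAs (Decidable (_ ∨ _))
instance (t a : ℕ) : Decidable (anc t a) := inferInstanceAs (Decidable (_ ∨ _))

theorem anc.okV {t a : ℕ} (h : anc t a) : okV t a := by
  unfold anc SD.okV at *
  omega

/-- The labels of the graph. -/
def Valid (N : ℕ) (ty : ℕ → ℕ) : Set U := {x |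
  (∃ y : ℕ × ℕ, y.1 ≤ N ∧ okV (ty y.1) y.2 ∧ x = vL y) ∨ (∃ q, q < N ∧ x = vC q) ∨
  (∃ (y : ℕ × ℕ) (q : ℕ), y.1 ≤ N ∧ anc (ty y.1) y.2 ∧ (y.1 = q ∨ y.1 = q + 1) ∧ q < N ∧
    x = vA y q) ∨
  (∃ (y : ℕ × ℕ) (q : ℕ), y.1 ≤ N ∧ anc (ty y.1) y.2 ∧ (y.1 = q ∨ y.1 = q + 1) ∧ q < N ∧
    x = vB y q) ∨
  (∃ p, p ≤ N ∧ ty p = 2 ∧ x = vM p) ∨ (∃ p, p ≤ N ∧ ty p = 2 ∧ x = vN p)}

/-- The opposite variant. -/
def opp (x : ℕ × ℕ) : ℕ × ℕ := (x.1, 1 - x.2)

/-- An active link. -/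
def Act (ty : ℕ → ℕ) (s : Set U) (x : ℕ × ℕ) (q : ℕ) : Prop :=
  vL x ∈ s ∧ vC q ∈ s ∧ vA x q ∈ s ∧ vB x q ∈ s ∧ (ty x.1 = 1 → vL (opp x) ∉ s)

/-- `T` is a maximal clique of literal vertices inside `A`. -/
def MaxC (ty : ℕ → ℕ) (A T : Set (ℕ × ℕ)) : Prop :=
  T ⊆ A ∧ (∀ x ∈ T, ∀ y ∈ T, x ≠ y → RL ty x y) ∧
    ∀ z ∈ A, (∀ x ∈ T, z ≠ x → RL ty z x) → z ∈ T

/-- The present literal vertices. -/
def PL (s : Set U) : Set (ℕ × ℕ) := {x | vL x ∈ s}

/-- **Extension of a colouring from the literal vertices.** -/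
theorem good_of_f {s : Set U} (hs : s ⊆ Valid N ty) (f : ℕ × ℕ → Bool)
    (hX : ∀ x : ℕ × ℕ, ty x.1 = 1 → f x = f (opp x))
    (hY : ∀ p, ty p = 2 → f (p, 0) ≠ f (p, 1))
    (hC : ∀ q, vC q ∈ s → ∃ g : Bool, (∀ x, Act ty s x q → f x ≠ g) ∧
      ∀ T : Set (ℕ × ℕ), MaxC ty {x | x ∈ PL s ∧ ¬ Bl q x} T → T.Nonempty → ∃ x ∈ T, f x ≠ g)
    (hT : ∀ T : Set (ℕ × ℕ), MaxC ty (PL s) T → (∃ x ∈ T, ∃ y ∈ T, x ≠ y) →
      (∀ q, vC q ∈ s → ∃ x ∈ T, Bl q x) → ∃ x ∈ T, ∃ y ∈ T, f x ≠ f y)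
    (hown : ∀ q x, Bl q x → x.1 ≠ q ∧ x.1 ≠ q + 1) :
    ∃ c : U → Bool, GoodOn (R ty Bl) s c := by
  classical
  choose g' hg' using hC
  let g : ℕ → Bool := fun q => if h : vC q ∈ s then g' q h else false
  have hg1 : ∀ q x, Act ty s x q → f x ≠ g q := by
    intro q x h
    have h1 : vC q ∈ s := h.2.1
    simp only [g, dif_pos h1]
    exact (hg' q h1).1 x h
  have hg2 : ∀ q, vC q ∈ s → ∀ T : Set (ℕ × ℕ), MaxC ty {x | x ∈ PL s ∧ ¬ Bl q x} T →
      T.Nonempty → ∃ x ∈ T, f x ≠ g q := by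
    intro q h1
    simp only [g, dif_pos h1]
    exact (hg' q h1).2
  -- the colours of the inner vertices of the links
  let colB : ℕ × ℕ → ℕ → Bool := fun x q =>
    if ty x.1 = 1 ∧ vL (opp x) ∈ s then !(f x)
    else if vC q ∈ s then !(g q) else if vL x ∈ s then f x else false
  let colA : ℕ × ℕ → ℕ → Bool := fun x q =>
    if vL x ∈ s ∨ (ty x.1 = 1 ∧ vL (opp x) ∈ s) then !(f x) else !(colB x q)
  let c : U → Bool := fun u =>
    if u.1 = 0 then f (u.2.1, u.2.2.1)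
    else if u.1 = 1 then g u.2.1
    else if u.1 = 2 then colA (u.2.1, u.2.2.1) u.2.2.2
    else if u.1 = 3 then colB (u.2.1, u.2.2.1) u.2.2.2
    else if u.1 = 4 then !(f (u.2.1, 0)) else !(f (u.2.1, 1))
  have cL : ∀ x, c (vL x) = f x := fun x => rfl
  have cC : ∀ q, c (vC q) = g q := fun q => rfl
  have cA : ∀ x q, c (vA x q) = colA x q := fun x q => rfl
  have cB : ∀ x q, c (vB x q) = colB x q := fun x q => rfl
  have cM : ∀ p, c (vM p) = !(f (p, 0)) := fun x => rfl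
  have cN : ∀ p, c (vN p) = !(f (p, 1)) := fun x => rfl
  -- adjacent literal vertex of an inner vertex
  have fopp : ∀ x y : ℕ × ℕ, ty x.1 = 1 → okV (ty x.1) x.2 → okV (ty y.1) y.2 → x.1 = y.1 →
      x.2 ≠ y.2 → x = opp y := by
    intro x y h1 h2 h3 h4 h5
    unfold okV at h2 h3
    rw [← h4, h1] at h3
    rw [h1] at h2
    refine Prod.ext h4 ?_
    simp only [opp]
    omega
  have vL_ok : ∀ x, vL x ∈ s → x.1 ≤ N ∧ okV (ty x.1) x.2 := by
    intro x hx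
    rcases hs hx with ⟨y, h1, h2, h3⟩ | ⟨q, _, h3⟩ | ⟨y, q, _, _, _, _, h3⟩ |
      ⟨y, q, _, _, _, _, h3⟩ | ⟨p, _, _, h3⟩ | ⟨p, _, _, h3⟩
    · rw [vL_inj.1 h3]; exact ⟨h1, h2⟩
    all_goals simp [vL, vC, vA, vB, vM, vN] at h3
  have hA1 : ∀ x y : ℕ × ℕ, ∀ q, anc (ty y.1) y.2 → vL x ∈ s → R ty Bl (vL x) (vA y q) →
      f x ≠ colA y q := by
    intro x y q hy hx h
    rw [R_LA] at h
    have hcol : colA y q = !(f y) := by
      simp only [colA]
      rw [if_pos]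
      by_cases h2 : x.2 = y.2
      · left
        rwa [← (Prod.ext h.1 h2 : x = y)]
      · right
        have ht : ty x.1 = 1 := by
          rcases h.2 with h3 | h3
          · exact absurd h3 h2
          · exact h3
        refine ⟨h.1 ▸ ht, ?_⟩
        have := fopp x y ht (vL_ok x hx).2 hy.okV h.1 h2
        rwa [← this]
    rw [hcol]
    by_cases h2 : x.2 = y.2
    · rw [(Prod.ext h.1 h2 : x = y)]
      cases f y <;> simp
    · have ht : ty x.1 = 1 := by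
        rcases h.2 with h3 | h3
        · exact absurd h3 h2
        · exact h3
      have h4 := fopp x y ht (vL_ok x hx).2 hy.okV h.1 h2
      rw [hX y (h.1 ▸ ht), ← h4]
      cases f x <;> simp
  have hB1 : ∀ x y : ℕ × ℕ, ∀ q, anc (ty y.1) y.2 → vL x ∈ s → R ty Bl (vL x) (vB y q) →
      f x ≠ colB y q := by
    intro x y q hy hx h
    rw [R_LB] at h
    have h4 := fopp x y h.2.1 (vL_ok x hx).2 hy.okV h.1 h.2.2
    have hcol : colB y q = !(f y) := by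
      simp only [colB]
      rw [if_pos ⟨h.1 ▸ h.2.1, by rwa [← h4]⟩]
    rw [hcol, hX y (h.1 ▸ h.2.1), ← h4]
    cases f x <;> simp
  refine ⟨c, ?_⟩
  intro Q hQs hQ hmax hnt
  -- another element of the clique
  have other : ∀ u ∈ Q, ∃ v ∈ Q, v ≠ u := by
    intro u _
    obtain ⟨x, hx, y, hy, hxy⟩ := hnt
    by_cases h : x = u
    · exact ⟨y, hy, fun h' => hxy (h.trans h'.symm)⟩
    · exact ⟨x, hx, h⟩
  by_cases hAQ : ∃ y q, vA y q ∈ Q
  · obtain ⟨y, q, hyq⟩ := hAQ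
    have hanc : anc (ty y.1) y.2 ∧ (y.1 = q ∨ y.1 = q + 1) := by
      rcases hs (hQs hyq) with ⟨y', _, _, h3⟩ | ⟨q, _, h3⟩ | ⟨y', q', _, h1, h2, _, h3⟩ |
        ⟨y', q, _, _, _, _, h3⟩ | ⟨p, _, _, h3⟩ | ⟨p, _, _, h3⟩
      · simp [vL, vA] at h3
      · simp [vC, vA] at h3
      · rw [vA_inj] at h3
        rw [h3.1, h3.2]; exact ⟨h1, h2⟩
      all_goals simp [vA, vB, vM, vN] at h3
    by_cases hLQ : ∃ x, vL x ∈ Q
    · obtain ⟨x, hx⟩ := hLQ
      refine ⟨_, hx, _, hyq, ?_⟩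
      rw [cL, cA]
      exact hA1 x y q hanc.1 (hQs hx) (hQ _ hx _ hyq (by simp [vL, vA]))
    · push Not at hLQ
      obtain ⟨v, hv, hvu⟩ := other _ hyq
      have hR := hQ _ hyq _ hv (Ne.symm hvu)
      -- `v` is the other inner vertex
      have hvB : v = vB y q := by
        rcases hs (hQs hv) with ⟨y', _, _, rfl⟩ | ⟨q', _, rfl⟩ | ⟨y', q', _, _, _, _, rfl⟩ |
          ⟨y', q', _, _, _, _, rfl⟩ | ⟨p, _, _, rfl⟩ | ⟨p, _, _, rfl⟩
        · exact absurd hv (hLQ _)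
        · exact absurd (R_symm hR) (R_CA _ _ _)
        · exact absurd hR (R_AA _ _ _ _)
        · rw [R_AB] at hR
          rw [hR.1, hR.2]
        · exact absurd hR (R_AM _ _ _)
        · exact absurd hR (R_AN _ _ _)
      subst hvB
      refine ⟨_, hyq, _, hv, ?_⟩
      rw [cA, cB]
      -- only these two elements
      have honly : ∀ u ∈ Q, u = vA y q ∨ u = vB y q := by
        intro u hu
        by_contra hcon
        push Not at hcon
        have hR1 := hQ _ hyq _ hu (Ne.symm hcon.1)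
        rcases hs (hQs hu) with ⟨y', _, _, rfl⟩ | ⟨q', _, rfl⟩ | ⟨y', q', _, _, _, _, rfl⟩ |
          ⟨y', q', _, _, _, _, rfl⟩ | ⟨p, _, _, rfl⟩ | ⟨p, _, _, rfl⟩
        · exact absurd hu (hLQ _)
        · exact absurd (R_symm hR1) (R_CA _ _ _)
        · exact absurd hR1 (R_AA _ _ _ _)
        · rw [R_AB] at hR1
          exact hcon.2 (by rw [hR1.1, hR1.2])
        · exact absurd hR1 (R_AM _ _ _)
        · exact absurd hR1 (R_AN _ _ _)
      have hno : ¬ (ty y.1 = 1 ∧ vL (opp y) ∈ s) := by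
        rintro ⟨h1, h2⟩
        apply hLQ (opp y)
        apply hmax _ h2
        intro u hu _
        have hne : (opp y).2 ≠ y.2 := by
          have := hanc.1
          unfold anc at this
          rw [h1] at this
          simp only [opp]
          omega
        rcases honly u hu with rfl | rfl
        · rw [R_LA]
          exact ⟨rfl, Or.inr h1⟩
        · rw [R_LB]
          exact ⟨rfl, h1, hne⟩
      by_cases hy : vL y ∈ s
      · have e1 : colA y q = !(f y) := by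
          simp only [colA]
          rw [if_pos (Or.inl hy)]
        rw [e1]
        by_cases hq : vC q ∈ s
        · have e2 : colB y q = !(g q) := by
            simp only [colB]
            rw [if_neg hno, if_pos hq]
          rw [e2]
          have := hg1 q y ⟨hy, hq, hQs hyq, hQs hv, fun h1 h2 => hno ⟨h1, h2⟩⟩
          cases h3 : f y <;> cases h4 : g q <;> rw [h3, h4] at this <;> simp at this ⊢
        · have e2 : colB y q = f y := by
            simp only [colB]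
            rw [if_neg hno, if_neg hq, if_pos hy]
          rw [e2]
          cases f y <;> simp
      · have e1 : colA y q = !(colB y q) := by
          simp only [colA]
          rw [if_neg]
          rintro (h | h)
          · exact hy h
          · exact hno h
        rw [e1]
        cases colB y q <;> simp
  push Not at hAQ
  by_cases hBQ : ∃ y q, vB y q ∈ Q
  · obtain ⟨y, q, hyq⟩ := hBQ
    have hanc : anc (ty y.1) y.2 ∧ (y.1 = q ∨ y.1 = q + 1) := by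
      rcases hs (hQs hyq) with ⟨y', _, _, h3⟩ | ⟨q, _, h3⟩ | ⟨y', q', _, h1, h2, _, h3⟩ |
        ⟨y', q', _, h1, h2, _, h3⟩ | ⟨p, _, _, h3⟩ | ⟨p, _, _, h3⟩
      · simp [vL, vB] at h3
      · simp [vC, vB] at h3
      · simp [vA, vB] at h3
      · rw [vB_inj] at h3
        rw [h3.1, h3.2]; exact ⟨h1, h2⟩
      all_goals simp [vB, vM, vN] at h3
    by_cases hLQ : ∃ x, vL x ∈ Q
    · obtain ⟨x, hx⟩ := hLQ
      refine ⟨_, hx, _, hyq, ?_⟩
      rw [cL, cB]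
      exact hB1 x y q hanc.1 (hQs hx) (hQ _ hx _ hyq (by simp [vL, vB]))
    · push Not at hLQ
      obtain ⟨v, hv, hvu⟩ := other _ hyq
      have hR := hQ _ hyq _ hv (Ne.symm hvu)
      have hvC : v = vC q := by
        rcases hs (hQs hv) with ⟨y', _, _, rfl⟩ | ⟨q', _, rfl⟩ | ⟨y', q', _, _, _, _, rfl⟩ |
          ⟨y', q', _, _, _, _, rfl⟩ | ⟨p, _, _, rfl⟩ | ⟨p, _, _, rfl⟩
        · exact absurd hv (hLQ _)
        · have := (R_CB _ _ _).1 (R_symm hR)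
          rw [this]
        · exact absurd hv (hAQ _ _)
        · exact absurd hR (R_BB _ _ _ _)
        · exact absurd hR (R_BM _ _ _)
        · exact absurd hR (R_BN _ _ _)
      subst hvC
      have honly : ∀ u ∈ Q, u = vB y q ∨ u = vC q := by
        intro u hu
        by_contra hcon
        push Not at hcon
        have hR1 := hQ _ hyq _ hu (Ne.symm hcon.1)
        rcases hs (hQs hu) with ⟨y', _, _, rfl⟩ | ⟨q', _, rfl⟩ | ⟨y', q', _, _, _, _, rfl⟩ |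
          ⟨y', q', _, _, _, _, rfl⟩ | ⟨p, _, _, rfl⟩ | ⟨p, _, _, rfl⟩
        · exact absurd hu (hLQ _)
        · have := (R_CB _ _ _).1 (R_symm hR1)
          exact hcon.2 (by rw [this])
        · exact absurd hu (hAQ _ _)
        · exact absurd hR1 (R_BB _ _ _ _)
        · exact absurd hR1 (R_BM _ _ _)
        · exact absurd hR1 (R_BN _ _ _)
      have hno : ¬ (ty y.1 = 1 ∧ vL (opp y) ∈ s) := by
        rintro ⟨h1, h2⟩
        apply hLQ (opp y)
        apply hmax _ h2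
        intro u hu _
        have hne : (opp y).2 ≠ y.2 := by
          have := hanc.1
          unfold anc at this
          rw [h1] at this
          simp only [opp]
          omega
        rcases honly u hu with rfl | rfl
        · rw [R_LB]
          exact ⟨rfl, h1, hne⟩
        · rw [R_LC]
          intro h3
          have := hown _ _ h3
          simp only [opp] at this
          omega
      refine ⟨_, hyq, _, hv, ?_⟩
      rw [cB, cC]
      have e2 : colB y q = !(g q) := by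
        simp only [colB]
        rw [if_neg hno, if_pos (hQs hv)]
      rw [e2]
      cases g q <;> simp
  push Not at hBQ
  by_cases hMQ : ∃ p, vM p ∈ Q
  · obtain ⟨p, hp⟩ := hMQ
    have hty : ty p = 2 := by
      rcases hs (hQs hp) with ⟨y', _, _, h3⟩ | ⟨q, _, h3⟩ | ⟨y', q', _, h1, h2, _, h3⟩ |
        ⟨y', q', _, h1, h2, _, h3⟩ | ⟨p', _, h1, h3⟩ | ⟨p', _, _, h3⟩
      · simp [vL, vM] at h3
      · simp [vC, vM] at h3
      · simp [vA, vM] at h3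
      · simp [vB, vM] at h3
      · rw [vM_inj.1 h3]; exact h1
      · simp [vM, vN] at h3
    obtain ⟨v, hv, hvu⟩ := other _ hp
    have hR := hQ _ hp _ hv (Ne.symm hvu)
    refine ⟨_, hp, _, hv, ?_⟩
    rw [cM]
    rcases hs (hQs hv) with ⟨y', _, _, rfl⟩ | ⟨q', _, rfl⟩ | ⟨y', q', _, _, _, _, rfl⟩ |
        ⟨y', q', _, _, _, _, rfl⟩ | ⟨p', _, _, rfl⟩ | ⟨p', _, _, rfl⟩
    · have h1 := (R_LM _ _).1 (R_symm hR)
      rw [cL, (Prod.ext h1.1 h1.2 : y' = (p, 0))]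
      cases f (p, 0) <;> simp
    · exact absurd (R_symm hR) (R_CM _ _)
    · exact absurd (R_symm hR) (R_AM _ _ _)
    · exact absurd (R_symm hR) (R_BM _ _ _)
    · exact absurd hR (R_MM _ _)
    · have h1 := (R_MN _ _).1 hR
      subst h1
      rw [cN]
      have := hY p hty
      cases h3 : f (p, 0) <;> cases h4 : f (p, 1) <;> rw [h3, h4] at this <;> simp at this ⊢
  push Not at hMQ
  by_cases hNQ : ∃ p, vN p ∈ Q
  · obtain ⟨p, hp⟩ := hNQ
    obtain ⟨v, hv, hvu⟩ := other _ hp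
    have hR := hQ _ hp _ hv (Ne.symm hvu)
    refine ⟨_, hp, _, hv, ?_⟩
    rw [cN]
    rcases hs (hQs hv) with ⟨y', _, _, rfl⟩ | ⟨q', _, rfl⟩ | ⟨y', q', _, _, _, _, rfl⟩ |
        ⟨y', q', _, _, _, _, rfl⟩ | ⟨p', _, _, rfl⟩ | ⟨p', _, _, rfl⟩
    · have h1 := (R_LN _ _).1 (R_symm hR)
      rw [cL, (Prod.ext h1.1 h1.2 : y' = (p, 1))]
      cases f (p, 1) <;> simp
    · exact absurd (R_symm hR) (R_CN _ _)
    · exact absurd (R_symm hR) (R_AN _ _ _)
    · exact absurd (R_symm hR) (R_BN _ _ _)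
    · exact absurd hv (hMQ _)
    · exact absurd hR (R_NN _ _)
  push Not at hNQ
  -- only literal vertices and connectors
  have hform : ∀ u ∈ Q, (∃ x, u = vL x) ∨ ∃ q, u = vC q := by
    intro u hu
    rcases hs (hQs hu) with ⟨y', _, _, rfl⟩ | ⟨q', _, rfl⟩ | ⟨y', q', _, _, _, _, rfl⟩ |
        ⟨y', q', _, _, _, _, rfl⟩ | ⟨p', _, _, rfl⟩ | ⟨p', _, _, rfl⟩
    · exact Or.inl ⟨_, rfl⟩
    · exact Or.inr ⟨_, rfl⟩
    · exact absurd hu (hAQ _ _)
    · exact absurd hu (hBQ _ _)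
    · exact absurd hu (hMQ _)
    · exact absurd hu (hNQ _)
  by_cases hCQ : ∃ q, vC q ∈ Q
  · obtain ⟨q, hq⟩ := hCQ
    have honeC : ∀ q', vC q' ∈ Q → q' = q := by
      intro q' hq'
      by_contra hne
      exact absurd (hQ _ hq' _ hq (fun h => hne (vC_inj.1 h))) (R_CC _ _)
    have hM : MaxC ty {x | x ∈ PL s ∧ ¬ Bl q x} {x | vL x ∈ Q} := by
      refine ⟨?_, ?_, ?_⟩
      · intro x hx
        refine ⟨hQs hx, ?_⟩
        exact (R_LC _ _).1 (hQ _ hx _ hq (by simp [vL, vC]))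
      · intro x hx y hy hxy
        exact (R_LL _ _).1 (hQ _ hx _ hy (fun h => hxy (vL_inj.1 h)))
      · rintro z ⟨hz, hzq⟩ hzx
        apply hmax _ hz
        intro u hu hne
        rcases hform u hu with ⟨x, rfl⟩ | ⟨q', rfl⟩
        · exact (R_LL _ _).2 (hzx x hu (fun h => hne (by rw [h])))
        · rw [honeC q' hu]
          exact (R_LC _ _).2 hzq
    have hN : ({x | vL x ∈ Q} : Set (ℕ × ℕ)).Nonempty := by
      obtain ⟨v, hv, hvq⟩ := other _ hq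
      rcases hform v hv with ⟨x, rfl⟩ | ⟨q', rfl⟩
      · exact ⟨x, hv⟩
      · exact absurd (by rw [honeC q' hv]) hvq
    obtain ⟨x, hx, hxg⟩ := hg2 q (hQs hq) _ hM hN
    refine ⟨_, hx, _, hq, ?_⟩
    rw [cL, cC]
    exact hxg
  · push Not at hCQ
    have hM : MaxC ty (PL s) {x | vL x ∈ Q} := by
      refine ⟨?_, ?_, ?_⟩
      · intro x hx
        exact hQs hx
      · intro x hx y hy hxy
        exact (R_LL _ _).1 (hQ _ hx _ hy (fun h => hxy (vL_inj.1 h)))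
      · intro z hz hzx
        apply hmax _ hz
        intro u hu hne
        rcases hform u hu with ⟨x, rfl⟩ | ⟨q', rfl⟩
        · exact (R_LL _ _).2 (hzx x hu (fun h => hne (by rw [h])))
        · exact absurd hu (hCQ _)
    have hN : ∃ x ∈ ({x | vL x ∈ Q} : Set (ℕ × ℕ)), ∃ y ∈ ({x | vL x ∈ Q} : Set (ℕ × ℕ)),
        x ≠ y := by
      obtain ⟨x, hx, y, hy, hxy⟩ := hnt
      rcases hform x hx with ⟨x', rfl⟩ | ⟨q', rfl⟩
      · rcases hform y hy with ⟨y', rfl⟩ | ⟨q', rfl⟩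
        · exact ⟨x', hx, y', hy, fun h => hxy (by rw [h])⟩
        · exact absurd hy (hCQ _)
      · exact absurd hx (hCQ _)
    obtain ⟨x, hx, y, hy, hxy⟩ := hT _ hM hN (by
      intro q hq
      by_contra hcon
      push Not at hcon
      apply hCQ q
      apply hmax _ hq
      intro u hu _
      rcases hform u hu with ⟨x, rfl⟩ | ⟨q', rfl⟩
      · exact R_symm ((R_LC _ _).2 (hcon x hu))
      · exact absurd hu (hCQ _))
    exact ⟨_, hx, _, hy, hxy⟩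

end Pool.Agent.Zk96.SD
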