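import Pool.Agent.Zk96.SD.Conc
import Pool.Agent.Zk96.AdjDefs

/-!
# Strongly `2`-divisible graphs: the reduction from `∃∀∃`-formulas
-/

namespace Pool.Agent.NPC.Zk96SD

open Pool.Agent.H622R2 (GoodOn StronglyDivisible matGraph mat stronglyDivisible_two_iff matIso
  labGraph mat_poly entry mat_length entry_mat)
open Pool.Agent.Zk96 (IsAdjMatrix)
open Pool.Agent.Zk96.SD

/-- Two-colourability of the induced subgraphs for a graph given by labels. -/
theorem div_iff {W : Type} (vs : List W) (hnd : vs.Nodup) (adj : W → W → Bool) (R : W → W → Prop)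
    (hR : ∀ u v, u ≠ v → (R u v ↔ (adj u v = true ∨ adj v u = true))) :
    StronglyDivisible 2 (matGraph (mat vs adj)) ↔
      ∀ s : Set W, s ⊆ {x | x ∈ vs} → ∃ c : W → Bool, GoodOn R s c := by
  classical
  have e := matIso vs adj hnd
  have hR' : ∀ x y : Fin (mat vs adj).length, x ≠ y →
      ((matGraph (mat vs adj)).Adj x y ↔ R (e x).1 (e y).1) := by
    intro x y hxy
    have hne : e x ≠ e y := fun h => hxy (e.injective h)
    rw [← e.map_adj_iff, hR _ _ (fun h => hne (Subtype.ext h))]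
    exact ⟨fun h => h.2, fun h => ⟨hne, h⟩⟩

  rw [stronglyDivisible_two_iff (matGraph (mat vs adj)) (fun x => (e x).1)
    (fun x y h => e.injective (Subtype.ext h)) R hR']
  have hrange : Set.range (fun x => (e x).1) = {x | x ∈ vs} := by
    ext x
    constructor
    · rintro ⟨y, rfl⟩
      exact (e y).2
    · intro hx
      exact ⟨e.symm ⟨x, hx⟩, by simp⟩
  rw [hrange]

/-- The matrix of a symmetric irreflexive test is an adjacency matrix. -/
theorem isAdj_mat {W : Type} (vs : List W) (adj : W → W → Bool)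
    (h1 : ∀ u v, adj u v = adj v u) (h2 : ∀ u, adj u u = false) : IsAdjMatrix (mat vs adj) := by
  have hl := mat_length vs adj
  refine ⟨?_, ?_, ?_⟩
  · intro r hr
    rw [hl]
    unfold mat at hr
    rw [List.mem_map] at hr
    obtain ⟨u, _, rfl⟩ := hr
    simp
  · intro i hi j hj
    rw [hl] at hi hj
    rw [entry_mat vs adj i j hi hj, entry_mat vs adj j i hj hi, h1]
  · intro i hi
    rw [hl] at hi
    rw [entry_mat vs adj i i hi hi, h2]

/-- Validity of labels, written out. -/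
def ValP (N : ℕ) (ty : ℕ → ℕ) (u : U) : Prop :=
  (u.1 = 0 ∧ u.2.2.2 = 0 ∧ u.2.1 ≤ N ∧ okV (ty u.2.1) u.2.2.1) ∨
  (u.1 = 1 ∧ u.2.2.1 = 0 ∧ u.2.2.2 = 0 ∧ u.2.1 < N) ∨
  ((u.1 = 2 ∨ u.1 = 3) ∧ u.2.1 ≤ N ∧ anc (ty u.2.1) u.2.2.1 ∧
    (u.2.1 = u.2.2.2 ∨ u.2.1 = u.2.2.2 + 1) ∧ u.2.2.2 < N) ∨
  ((u.1 = 4 ∨ u.1 = 5) ∧ u.2.2.1 = 0 ∧ u.2.2.2 = 0 ∧ u.2.1 ≤ N ∧ ty u.2.1 = 2)

theorem valP_iff (N : ℕ) (ty : ℕ → ℕ) (u : U) : ValP N ty u ↔ u ∈ Valid N ty := by
  obtain ⟨k, p, a, q⟩ := u
  unfold ValP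
  constructor
  · rintro (⟨h1, h2, h3, h4⟩ | ⟨h1, h2, h3, h4⟩ | ⟨h1 | h1, h2, h3, h4, h5⟩ |
      ⟨h1 | h1, h2, h3, h4, h5⟩)
    · simp only at h1 h2 h3 h4
      subst h1 h2
      exact Or.inl ⟨(p, a), h3, h4, rfl⟩
    · simp only at h1 h2 h3 h4
      subst h1 h2 h3
      exact Or.inr (Or.inl ⟨p, h4, rfl⟩)
    · simp only at h1 h2 h3 h4 h5
      subst h1
      exact Or.inr (Or.inr (Or.inl ⟨(p, a), q, h2, h3, h4, h5, rfl⟩))
    · simp only at h1 h2 h3 h4 h5
      subst h1
      exact Or.inr (Or.inr (Or.inr (Or.inl ⟨(p, a), q, h2, h3, h4, h5, rfl⟩)))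
    · simp only at h1 h2 h3 h4 h5
      subst h1 h2 h3
      exact Or.inr (Or.inr (Or.inr (Or.inr (Or.inl ⟨p, h4, h5, rfl⟩))))
    · simp only at h1 h2 h3 h4 h5
      subst h1 h2 h3
      exact Or.inr (Or.inr (Or.inr (Or.inr (Or.inr ⟨p, h4, h5, rfl⟩))))
  · rintro (⟨y, h1, h2, h3⟩ | ⟨q', h1, h3⟩ | ⟨y, q', h1, h2, h3, h4, h5⟩ |
      ⟨y, q', h1, h2, h3, h4, h5⟩ | ⟨p', h1, h2, h3⟩ | ⟨p', h1, h2, h3⟩)
    · simp only [vL, Prod.mk.injEq] at h3
      obtain ⟨rfl, rfl, rfl, rfl⟩ := h3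
      exact Or.inl ⟨rfl, rfl, h1, h2⟩
    · simp only [vC, Prod.mk.injEq] at h3
      obtain ⟨rfl, rfl, rfl, rfl⟩ := h3
      exact Or.inr (Or.inl ⟨rfl, rfl, rfl, h1⟩)
    · simp only [vA, Prod.mk.injEq] at h5
      obtain ⟨rfl, rfl, rfl, rfl⟩ := h5
      exact Or.inr (Or.inr (Or.inl ⟨Or.inl rfl, h1, h2, h3, h4⟩))
    · simp only [vB, Prod.mk.injEq] at h5
      obtain ⟨rfl, rfl, rfl, rfl⟩ := h5
      exact Or.inr (Or.inr (Or.inl ⟨Or.inr rfl, h1, h2, h3, h4⟩))
    · simp only [vM, Prod.mk.injEq] at h3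
      obtain ⟨rfl, rfl, rfl, rfl⟩ := h3
      exact Or.inr (Or.inr (Or.inr ⟨Or.inl rfl, rfl, rfl, h1, h2⟩))
    · simp only [vN, Prod.mk.injEq] at h3
      obtain ⟨rfl, rfl, rfl, rfl⟩ := h3
      exact Or.inr (Or.inr (Or.inr ⟨Or.inr rfl, rfl, rfl, h1, h2⟩))

/-- All candidates for labels. -/
def cands (I : QI) : List U :=
  (List.range 6).product ((List.range (NN I + 1)).product
    ((List.range 4).product (List.range (NN I + 1))))

open Classical in
/-- The labels of the graph of an instance. -/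
noncomputable def labs (I : QI) : List U :=
  (cands I).filter fun u => decide (ValP (NN I) (tyI I) u)

open Classical in
/-- The adjacency test. -/
noncomputable def adjI (I : QI) (u v : U) : Bool := decide (u ≠ v ∧ R (tyI I) (BlI I) u v)

theorem labs_nodup (I : QI) : (labs I).Nodup := by
  apply List.Nodup.filter
  unfold cands
  exact List.nodup_range.product (List.nodup_range.product
    (List.nodup_range.product List.nodup_range))

theorem mem_labs (I : QI) (u : U) : u ∈ labs I ↔ u ∈ Valid (NN I) (tyI I) := by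
  rw [← valP_iff]
  unfold labs cands
  rw [List.mem_filter]
  simp only [decide_eq_true_eq, and_iff_right_iff_imp]
  obtain ⟨k, p, a, q⟩ := u
  intro h
  rw [List.pair_mem_product, List.pair_mem_product, List.pair_mem_product]
  simp only [List.mem_range]
  rcases h with ⟨h1, h2, h3, h4⟩ | ⟨h1, h2, h3, h4⟩ | ⟨h1, h2, h3, h4, h5⟩ |
      ⟨h1, h2, h3, h4, h5⟩
  · simp only at h1 h2 h3 h4
    unfold okV at h4
    omega
  · simp only at h1 h2 h3 h4
    omega
  · simp only at h1 h2 h3 h4 h5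
    unfold anc at h3
    omega
  · simp only at h1 h2 h3 h4 h5
    omega

/-- The reduction. -/
noncomputable def sdR (I : QI) : List (List Bool) := mat (labs I) (adjI I)

/-- **Correctness of the reduction.** -/
theorem sdR_correct (I : QI) (hI : EAEPr I) :
    EAE I ↔ ¬ StronglyDivisible 2 (matGraph (sdR I)) := by
  have h1 : StronglyDivisible 2 (matGraph (sdR I)) ↔
      ∀ s : Set U, s ⊆ Valid (NN I) (tyI I) → ∃ c : U → Bool,
        GoodOn (R (tyI I) (BlI I)) s c := by
    have h2 : {x | x ∈ labs I} = Valid (NN I) (tyI I) := by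
      ext x
      exact mem_labs I x
    rw [← h2]
    exact div_iff (labs I) (labs_nodup I) (adjI I) (R (tyI I) (BlI I)) (fun u v huv => by
      unfold adjI
      simp only [decide_eq_true_eq]
      exact ⟨fun h => Or.inl ⟨huv, h⟩, fun h => h.elim (fun h => h.2) (fun h => R_symm h.2)⟩)
  rw [h1]
  constructor
  · intro h hall
    obtain ⟨s, hs, hno⟩ := not_good (N := NN I) (ty := tyI I) (Bl := BlI I)
      (by unfold NN; omega) (inst I).ty_le (hS_of hI h)
    exact hno (hall s hs)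
  · intro hno
    by_contra hcon
    exact hno (fun s hs => good_all (inst I) hs (hF_of hcon))

theorem sdR_isAdj (I : QI) : IsAdjMatrix (sdR I) := by
  refine isAdj_mat _ _ (fun u v => ?_) (fun u => ?_)
  · unfold adjI
    rw [decide_eq_decide]
    exact ⟨fun h => ⟨Ne.symm h.1, R_symm h.2⟩, fun h => ⟨Ne.symm h.1, R_symm h.2⟩⟩
  · simp [adjI]

/-! ### Polynomial time -/

section PolyTime

set_option synthInstance.maxSize 4000

theorem cl_poly {α : Type} [TEnc α] {f : α → QI} (hf : Poly f) : Poly (fun a => cl (f a)) := by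
  have h1 : Poly (fun a => (f a).2.2.2) := Poly.snd (Poly.snd (Poly.snd hf))
  refine Poly.filter (p := fun _ c => nontaut c) h1 ?_
  refine Poly.all (p := fun (x : α × List (Bool × ℕ)) (l : Bool × ℕ) =>
    !decide ((!l.1, l.2) ∈ x.2)) (Poly.snd Poly.id) ?_
  exact Poly.not (Poly.dec_mem (Poly.pair (Poly.not (Poly.fst (Poly.snd Poly.id)))
    (Poly.snd (Poly.snd Poly.id))) (Poly.snd (Poly.fst Poly.id)))

theorem nv_upoly {α : Type} [TEnc α] {f : α → QI} (hf : Poly f) : UPoly (fun a => nv (f a)) :=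
  UPoly.add (UPoly.add (UPoly.length (Poly.fst hf)) (UPoly.length (Poly.fst (Poly.snd hf))))
    (UPoly.length (Poly.fst (Poly.snd (Poly.snd hf))))

theorem NN_upoly {α : Type} [TEnc α] {f : α → QI} (hf : Poly f) : UPoly (fun a => NN (f a)) :=
  UPoly.mul (UPoly.const 2) (UPoly.add (UPoly.add (nv_upoly hf) (UPoly.length (cl_poly hf)))
    (UPoly.const 1))

theorem tyI_poly {α : Type} [TEnc α] {f : α → QI} {p : α → ℕ} (hf : Poly f) (hp : Poly p) :
    Poly (fun a => tyI (f a) (p a)) := by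
  have h1 := (UPoly.length (Poly.fst hf)).toPoly
  have h2 := (UPoly.length (Poly.fst (Poly.snd hf))).toPoly
  have h3 := (nv_upoly hf).toPoly
  have hd : Poly (fun a => p a / 2) := Poly.div hp (Poly.const 2)
  unfold tyI
  exact PP.ite (PP.eq (Poly.mod hp (Poly.const 2)) (Poly.const 0)) (Poly.const 0)
    (PP.ite (PP.lt hd h1) (Poly.const 1) (PP.ite (PP.lt hd (Poly.add h1 h2)) (Poly.const 2)
      (PP.ite (PP.lt hd h3) (Poly.const 3) (Poly.const 0))))

theorem okV_pp {α : Type} [TEnc α] {t p : α → ℕ} (ht : Poly t) (hp : Poly p) :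
    PP (fun a => okV (t a) (p a)) := by
  have e : ∀ k, PP (fun a => t a = k) := fun k => PP.eq ht (Poly.const k)
  unfold okV
  exact ((e 0).and (PP.eq hp (Poly.const 0))).or ((((e 1).or (e 3)).and
    (PP.le hp (Poly.const 1))).or ((e 2).and (PP.le hp (Poly.const 3))))

theorem anc_pp {α : Type} [TEnc α] {t p : α → ℕ} (ht : Poly t) (hp : Poly p) :
    PP (fun a => anc (t a) (p a)) := by
  have e : ∀ k, PP (fun a => t a = k) := fun k => PP.eq ht (Poly.const k)
  unfold anc
  exact ((e 0).and (PP.eq hp (Poly.const 0))).or ((((e 1).or (e 3)).and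
    (PP.le hp (Poly.const 1))).or ((e 2).and
      ((PP.eq hp (Poly.const 2)).or (PP.eq hp (Poly.const 3)))))

theorem E4_pp {α : Type} [TEnc α] {t p : α → ℕ} (ht : Poly t) (hp : Poly p) :
    PP (fun a => E4 (t a) (p a)) := by
  unfold E4
  exact ((PP.eq ht (Poly.const 0)).and (PP.eq hp (Poly.const 1))).or
    (((PP.eq ht (Poly.const 0)).and (PP.eq hp (Poly.const 2))).or
      ((PP.eq ht (Poly.const 1)).and (PP.eq hp (Poly.const 3))))

theorem BlI_pp {α : Type} [TEnc α] {f : α → QI} {q : α → ℕ} {x : α → ℕ × ℕ} (hf : Poly f)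
    (hq : Poly q) (hx : Poly x) : PP (fun a => BlI (f a) (q a) (x a)) := by
  have hN : Poly (fun a => NN (f a)) := (NN_upoly hf).toPoly
  have hn : Poly (fun a => nv (f a)) := (nv_upoly hf).toPoly
  have hN1 : Poly (fun a => NN (f a) - 1) := Poly.sub hN (Poly.const 1)
  have hc := cl_poly hf
  have hq2 : Poly (fun a => q a / 2) := Poly.div hq (Poly.const 2)
  have hx1 : Poly (fun a => (x a).1) := Poly.fst hx
  have hx2 : Poly (fun a => (x a).2) := Poly.snd hx
  have hx12 : Poly (fun a => (x a).1 / 2) := Poly.div hx1 (Poly.const 2)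
  have e1 : PP (fun a => q a = NN (f a) - 1) := PP.eq hq hN1
  have e2 : PP (fun a => q a % 2 = 1 ∧ nv (f a) ≤ q a / 2) :=
    (PP.eq (Poly.mod hq (Poly.const 2)) (Poly.const 1)).and (PP.le hn hq2)
  have e3 : PP (fun a => (decide ((x a).2 = 0), (x a).1 / 2) ∈
      (cl (f a)).getD (q a / 2 - nv (f a)) []) :=
    PP.mem (Poly.pair (Poly.dec_eq hx2 (Poly.const 0)) hx12)
      (Poly.getD hc (Poly.sub hq2 hn) (Poly.const []))
  unfold BlI
  exact (PP.lt hq hN).and ((e1.and (PP.eq hx1 (Poly.const 0))).or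
    ((e1.not.and (e2.and ((PP.eq (Poly.mod hx1 (Poly.const 2)) (Poly.const 1)).and
      ((PP.lt hx12 hn).and ((PP.le hx2 (Poly.const 1)).and e3))))).or
      (e1.not.and (e2.not.and (PP.eq hx1 hN)))))

theorem valP_pp {α : Type} [TEnc α] {f : α → QI} {u : α → U} (hf : Poly f) (hu : Poly u) :
    PP (fun a => ValP (NN (f a)) (tyI (f a)) (u a)) := by
  have hN : Poly (fun a => NN (f a)) := (NN_upoly hf).toPoly
  have hk : Poly (fun a => (u a).1) := Poly.fst hu
  have hp : Poly (fun a => (u a).2.1) := Poly.fst (Poly.snd hu)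
  have ha : Poly (fun a => (u a).2.2.1) := Poly.fst (Poly.snd (Poly.snd hu))
  have hq : Poly (fun a => (u a).2.2.2) := Poly.snd (Poly.snd (Poly.snd hu))
  have ht : Poly (fun a => tyI (f a) (u a).2.1) := tyI_poly hf hp
  have e : ∀ k, PP (fun a => (u a).1 = k) := fun k => PP.eq hk (Poly.const k)
  have a0 : PP (fun a => (u a).2.2.1 = 0) := PP.eq ha (Poly.const 0)
  have q0 : PP (fun a => (u a).2.2.2 = 0) := PP.eq hq (Poly.const 0)
  have pN : PP (fun a => (u a).2.1 ≤ NN (f a)) := PP.le hp hN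
  unfold ValP
  exact ((e 0).and (q0.and (pN.and (okV_pp ht ha)))).or
    (((e 1).and (a0.and (q0.and (PP.lt hp hN)))).or
    ((((e 2).or (e 3)).and (pN.and ((anc_pp ht ha).and (((PP.eq hp hq).or
      (PP.eq hp (Poly.add hq (Poly.const 1)))).and (PP.lt hq hN))))).or
    (((e 4).or (e 5)).and (a0.and (q0.and (pN.and (PP.eq ht (Poly.const 2))))))))

theorem half_pp {α : Type} [TEnc α] {f : α → QI} {u v : α → U} (hf : Poly f) (hu : Poly u)
    (hv : Poly v) : PP (fun a => Half (tyI (f a)) (BlI (f a)) (u a) (v a)) := by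
  have ku : Poly (fun a => (u a).1) := Poly.fst hu
  have pu : Poly (fun a => (u a).2.1) := Poly.fst (Poly.snd hu)
  have au : Poly (fun a => (u a).2.2.1) := Poly.fst (Poly.snd (Poly.snd hu))
  have kv : Poly (fun a => (v a).1) := Poly.fst hv
  have pv : Poly (fun a => (v a).2.1) := Poly.fst (Poly.snd hv)
  have av : Poly (fun a => (v a).2.2.1) := Poly.fst (Poly.snd (Poly.snd hv))
  have qv : Poly (fun a => (v a).2.2.2) := Poly.snd (Poly.snd (Poly.snd hv))
  have ht : Poly (fun a => tyI (f a) (u a).2.1) := tyI_poly hf pu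
  have e : ∀ k, PP (fun a => (u a).1 = k) := fun k => PP.eq ku (Poly.const k)
  have e' : ∀ k, PP (fun a => (v a).1 = k) := fun k => PP.eq kv (Poly.const k)
  have t1 : PP (fun a => tyI (f a) (u a).2.1 = 1) := PP.eq ht (Poly.const 1)
  have t2 : PP (fun a => tyI (f a) (u a).2.1 = 2) := PP.eq ht (Poly.const 2)
  have pp : PP (fun a => (u a).2.1 = (v a).2.1) := PP.eq pu pv
  have aa : PP (fun a => (u a).2.2.1 = (v a).2.2.1) := PP.eq au av
  unfold Half
  exact ((e 0).and ((e' 0).and (pp.not.or (t2.and (E4_pp au av))))).or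
    (((e 0).and ((e' 1).and (BlI_pp hf pv (Poly.pair pu au)).not)).or
    (((e 0).and ((e' 2).and (pp.and (aa.or t1)))).or
    (((e 0).and ((e' 3).and (pp.and (t1.and aa.not)))).or
    (((e 0).and ((e' 4).and (pp.and (PP.eq au (Poly.const 0))))).or
    (((e 0).and ((e' 5).and (pp.and (PP.eq au (Poly.const 1))))).or
    (((e 1).and ((e' 3).and (PP.eq pu qv))).or
    (((e 2).and ((e' 3).and (PP.eq (Poly.snd hu) (Poly.snd hv)))).or
    ((e 4).and ((e' 5).and pp)))))))))

theorem cands_poly {α : Type} [TEnc α] {f : α → QI} (hf : Poly f) :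
    Poly (fun a => cands (f a)) := by
  have hr : Poly (fun a => List.range (NN (f a) + 1)) :=
    UPoly.range (UPoly.add (NN_upoly hf) (UPoly.const 1))
  unfold cands
  exact R671.poly_product (Poly.const _) (R671.poly_product hr
    (R671.poly_product (Poly.const _) hr))

theorem sdR_poly : Poly sdR := by
  classical
  have h1 : Poly labs := PP.filter (l := fun I => cands I)
    (r := fun I u => ValP (NN I) (tyI I) u) (cands_poly Poly.id)
    (valP_pp (f := fun x : QI × U => x.1) (u := fun x => x.2) (Poly.fst Poly.id)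
      (Poly.snd Poly.id))
  have f1 : Poly (fun x : (QI × U) × U => x.1.1) := Poly.fst (Poly.fst Poly.id)
  have f2 : Poly (fun x : (QI × U) × U => x.1.2) := Poly.snd (Poly.fst Poly.id)
  have f3 : Poly (fun x : (QI × U) × U => x.2) := Poly.snd Poly.id
  exact mat_poly (adj := adjI) h1 (PP.dec ((PP.ne f2 f3).and ((half_pp f1 f2 f3).or
    (half_pp f1 f3 f2))))

end PolyTime

end Pool.Agent.NPC.Zk96SD
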