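import Pool.Agent.Zk96.Pi3
import Pool.Agent.Zk96.SD.Red

/-!
# Recognition of strongly `2`-divisible graphs is in `Π₃ᵖ`
-/

namespace Pool.Agent.NPC.Zk96SD

open Pool.Agent.H622R2 (GoodOn StronglyDivisible matGraph entry stronglyDivisible_two_iff)
open Pool.Agent.Zk96 (IsAdjMatrix)
open Pool.Agent.Zk96.SD

/-- Adjacency of numbers in the graph of a matrix. -/
def adjN (M : List (List Bool)) (i j : ℕ) : Prop := entry M i j = true ∨ entry M j i = true

theorem divM_iff (M : List (List Bool)) : StronglyDivisible 2 (matGraph M) ↔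
    ∀ s : Set ℕ, s ⊆ {i | i < M.length} → ∃ c : ℕ → Bool, GoodOn (adjN M) s c := by
  rw [stronglyDivisible_two_iff (matGraph M) (fun x => x.1) Fin.val_injective (adjN M)
    (fun x y hxy => by
      unfold matGraph adjN
      exact ⟨fun h => h.2, fun h => ⟨hxy, h⟩⟩)]
  have : Set.range (fun x : Fin M.length => x.1) = {i | i < M.length} := by
    ext i
    constructor
    · rintro ⟨x, rfl⟩
      exact x.2
    · intro h
      exact ⟨⟨i, h⟩, rfl⟩
  rw [this]

/-- The set of numbers coded by a string. -/
def inS (u : List Bool) (i : ℕ) : Prop := u.getD i false = true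

/-- The string of the first values of a function. -/
def str (k : ℕ) (b : ℕ → Bool) : List Bool := (List.range k).map b

theorem str_getD (k : ℕ) (b : ℕ → Bool) (i : ℕ) (hi : i < k) : (str k b).getD i false = b i := by
  unfold str
  rw [List.getD_eq_getElem?_getD, List.getElem?_map, List.getElem?_range hi]
  rfl

/-- The check: if the third string codes a maximal clique with at least two vertices of the
subgraph coded by the first string, then it is not monochromatic. -/
def Chk (M : List (List Bool)) (u v w : List Bool) : Prop :=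
  ((∀ i ∈ List.range M.length, inS w i → inS u i) ∧
    (∀ i ∈ List.range M.length, ∀ j ∈ List.range M.length, inS w i → inS w j → i ≠ j →
      adjN M i j) ∧
    (∀ i ∈ List.range M.length, inS u i →
      (∀ j ∈ List.range M.length, inS w j → i ≠ j → adjN M i j) → inS w i) ∧
    (∃ i ∈ List.range M.length, ∃ j ∈ List.range M.length, inS w i ∧ inS w j ∧ i ≠ j)) →
  ∃ i ∈ List.range M.length, ∃ j ∈ List.range M.length, inS w i ∧ inS w j ∧
    v.getD i false ≠ v.getD j false

/-- The set coded by a string. -/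
def setOf' (M : List (List Bool)) (u : List Bool) : Set ℕ := {i | i < M.length ∧ inS u i}

theorem chk_iff (M : List (List Bool)) (k : ℕ) (hk : M.length ≤ k) (u v : List Bool) :
    GoodOn (adjN M) (setOf' M u) (fun i => v.getD i false) ↔
      ∀ w : List Bool, w.length = k → Chk M u v w := by
  classical
  constructor
  · rintro h w _ ⟨h1, h2, h3, i, hi, j, hj, hiw, hjw, hij⟩
    simp only [List.mem_range] at h1 h2 h3 hi hj
    obtain ⟨x, hx, y, hy, hxy⟩ := h (setOf' M w) (fun x hx => ⟨hx.1, h1 x hx.1 hx.2⟩)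
      (fun x hx y hy hne => h2 x hx.1 y hy.1 hx.2 hy.2 hne)
      (fun x hx hq => ⟨hx.1, h3 x hx.1 hx.2 (fun j hj hjw hne => hq j ⟨hj, hjw⟩ hne)⟩)
      ⟨i, ⟨hi, hiw⟩, j, ⟨hj, hjw⟩, hij⟩
    exact ⟨x, List.mem_range.2 hx.1, y, List.mem_range.2 hy.1, hx.2, hy.2, hxy⟩
  · intro h Q hQs hQ hmax ⟨x, hx, y, hy, hxy⟩
    have hw : ∀ i, i < M.length → (inS (str k (fun i => decide (i ∈ Q))) i ↔ i ∈ Q) := by
      intro i hi
      unfold inS
      rw [str_getD _ _ _ (by omega)]
      simp
    obtain ⟨i, hi, j, hj, hiw, hjw, hij⟩ := h (str k (fun i => decide (i ∈ Q)))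
      (by simp [str]) (by
        refine ⟨?_, ?_, ?_, ?_⟩
        · intro i hi hiw
          rw [List.mem_range] at hi
          exact (hQs ((hw i hi).1 hiw)).2
        · intro i hi j hj hiw hjw hne
          rw [List.mem_range] at hi hj
          exact hQ i ((hw i hi).1 hiw) j ((hw j hj).1 hjw) hne
        · intro i hi hiu hq
          rw [List.mem_range] at hi
          rw [hw i hi]
          apply hmax i ⟨hi, hiu⟩
          intro j hj hne
          have hj' := (hQs hj).1
          exact hq j (List.mem_range.2 hj') ((hw j hj').2 hj) hne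
        · have hx' := (hQs hx).1
          have hy' := (hQs hy).1
          exact ⟨x, List.mem_range.2 hx', y, List.mem_range.2 hy', (hw x hx').2 hx,
            (hw y hy').2 hy, hxy⟩)
    rw [List.mem_range] at hi hj
    exact ⟨i, (hw i hi).1 hiw, j, (hw j hj).1 hjw, hij⟩

theorem goodOn_congr {M : List (List Bool)} {s : Set ℕ} {c c' : ℕ → Bool}
    (h : ∀ i ∈ s, c i = c' i) (hg : GoodOn (adjN M) s c) : GoodOn (adjN M) s c' := by
  intro Q hQs hQ hmax hnt
  obtain ⟨x, hx, y, hy, hxy⟩ := hg Q hQs hQ hmax hnt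
  exact ⟨x, hx, y, hy, by rw [← h x (hQs hx), ← h y (hQs hy)]; exact hxy⟩

theorem div_strings (M : List (List Bool)) (k : ℕ) (hk : M.length ≤ k) :
    StronglyDivisible 2 (matGraph M) ↔ ∀ u : List Bool, u.length = k →
      ∃ v : List Bool, v.length = k ∧ ∀ w : List Bool, w.length = k → Chk M u v w := by
  classical
  rw [divM_iff]
  constructor
  · intro h u _
    obtain ⟨c, hc⟩ := h (setOf' M u) (fun i hi => hi.1)
    refine ⟨str k c, by simp [str], ?_⟩
    rw [← chk_iff M k hk]
    refine goodOn_congr ?_ hc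
    intro i hi
    have := hi.1
    rw [str_getD _ _ _ (by omega)]
  · intro h s hs
    obtain ⟨v, _, hv⟩ := h (str k (fun i => decide (i ∈ s))) (by simp [str])
    rw [← chk_iff M k hk] at hv
    refine ⟨fun i => v.getD i false, ?_⟩
    have : setOf' M (str k (fun i => decide (i ∈ s))) = s := by
      ext i
      constructor
      · rintro ⟨hi, hi2⟩
        unfold inS at hi2
        rw [str_getD _ _ _ (by omega)] at hi2
        simpa using hi2
      · intro hi
        have hi' := hs hi
        simp only [Set.mem_ofPred_eq] at hi'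
        refine ⟨hi', ?_⟩
        unfold inS
        rw [str_getD _ _ _ (by omega)]
        simpa using hi
    rw [this] at hv
    exact hv

section PolyTime

theorem entry_poly {α : Type} [TEnc α] {M : α → List (List Bool)} {i j : α → ℕ} (hM : Poly M)
    (hi : Poly i) (hj : Poly j) : Poly (fun a => entry (M a) (i a) (j a)) :=
  Poly.getD (Poly.getD hM hi (Poly.const [])) hj (Poly.const false)

theorem adjN_pp {α : Type} [TEnc α] {M : α → List (List Bool)} {i j : α → ℕ} (hM : Poly M)
    (hi : Poly i) (hj : Poly j) : PP (fun a => adjN (M a) (i a) (j a)) :=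
  (PP.bool (entry_poly hM hi hj)).or (PP.bool (entry_poly hM hj hi))

theorem inS_pp {α : Type} [TEnc α] {u : α → List Bool} {i : α → ℕ} (hu : Poly u)
    (hi : Poly i) : PP (fun a => inS (u a) (i a)) :=
  PP.bool (Poly.getD hu hi (Poly.const false))

theorem imp_pp {α : Type} [TEnc α] {p q : α → Prop} (hp : PP p) (hq : PP q) :
    PP (fun a => p a → q a) :=
  (hp.not.or hq).congr fun a => by tauto

theorem chk_pp : PP (fun a : List (List Bool) × List Bool × List Bool × List Bool =>
    Chk a.1 a.2.1 a.2.2.1 a.2.2.2) := by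
  have M0 : Poly (fun a : List (List Bool) × List Bool × List Bool × List Bool => a.1) :=
    Poly.fst Poly.id
  have u0 : Poly (fun a : List (List Bool) × List Bool × List Bool × List Bool => a.2.1) :=
    Poly.fst (Poly.snd Poly.id)
  have v0 : Poly (fun a : List (List Bool) × List Bool × List Bool × List Bool => a.2.2.1) :=
    Poly.fst (Poly.snd (Poly.snd Poly.id))
  have w0 : Poly (fun a : List (List Bool) × List Bool × List Bool × List Bool => a.2.2.2) :=
    Poly.snd (Poly.snd (Poly.snd Poly.id))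
  have r0 : Poly (fun a : List (List Bool) × List Bool × List Bool × List Bool =>
      List.range a.1.length) := Poly.range_length M0
  have f1 : Poly (fun a : (List (List Bool) × List Bool × List Bool × List Bool) × ℕ => a.1) :=
    Poly.fst Poly.id
  have i1 : Poly (fun a : (List (List Bool) × List Bool × List Bool × List Bool) × ℕ => a.2) :=
    Poly.snd Poly.id
  have f2 : Poly (fun a : ((List (List Bool) × List Bool × List Bool × List Bool) × ℕ) × ℕ =>
      a.1.1) := Poly.fst (Poly.fst Poly.id)
  have i2 : Poly (fun a : ((List (List Bool) × List Bool × List Bool × List Bool) × ℕ) × ℕ =>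
      a.1.2) := Poly.snd (Poly.fst Poly.id)
  have j2 : Poly (fun a : ((List (List Bool) × List Bool × List Bool × List Bool) × ℕ) × ℕ =>
      a.2) := Poly.snd Poly.id
  have M1 := M0.comp f1
  have u1 := u0.comp f1
  have w1 := w0.comp f1
  have r1 := r0.comp f1
  have M2 := M0.comp f2
  have v2 := v0.comp f2
  have w2 := w0.comp f2
  unfold Chk
  refine imp_pp (PP.and ?_ (PP.and ?_ (PP.and ?_ ?_))) ?_
  · exact PP.ball (r := fun a i => inS a.2.2.2 i → inS a.2.1 i) r0
      (imp_pp (inS_pp w1 i1) (inS_pp u1 i1))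
  · exact PP.ball (r := fun a i => ∀ j ∈ List.range a.1.length, inS a.2.2.2 i → inS a.2.2.2 j →
        i ≠ j → adjN a.1 i j) r0
      (PP.ball (r := fun (b : (List (List Bool) × List Bool × List Bool × List Bool) × ℕ) j =>
        inS b.1.2.2.2 b.2 → inS b.1.2.2.2 j → b.2 ≠ j → adjN b.1.1 b.2 j) r1
        (imp_pp (inS_pp w2 i2) (imp_pp (inS_pp w2 j2) (imp_pp (PP.ne i2 j2)
          (adjN_pp M2 i2 j2)))))
  · exact PP.ball (r := fun a i => inS a.2.1 i → (∀ j ∈ List.range a.1.length, inS a.2.2.2 j →
        i ≠ j → adjN a.1 i j) → inS a.2.2.2 i) r0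
      (imp_pp (inS_pp u1 i1) (imp_pp (PP.ball (r := fun (b : (List (List Bool) × List Bool ×
        List Bool × List Bool) × ℕ) j => inS b.1.2.2.2 j → b.2 ≠ j → adjN b.1.1 b.2 j) r1
        (imp_pp (inS_pp w2 j2) (imp_pp (PP.ne i2 j2) (adjN_pp M2 i2 j2)))) (inS_pp w1 i1)))
  · exact PP.bex (r := fun a i => ∃ j ∈ List.range a.1.length, inS a.2.2.2 i ∧ inS a.2.2.2 j ∧
        i ≠ j) r0
      (PP.bex (r := fun (b : (List (List Bool) × List Bool × List Bool × List Bool) × ℕ) j =>
        inS b.1.2.2.2 b.2 ∧ inS b.1.2.2.2 j ∧ b.2 ≠ j) r1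
        ((inS_pp w2 i2).and ((inS_pp w2 j2).and (PP.ne i2 j2))))
  · exact PP.bex (r := fun a i => ∃ j ∈ List.range a.1.length, inS a.2.2.2 i ∧ inS a.2.2.2 j ∧
        a.2.2.1.getD i false ≠ a.2.2.1.getD j false) r0
      (PP.bex (r := fun (b : (List (List Bool) × List Bool × List Bool × List Bool) × ℕ) j =>
        inS b.1.2.2.2 b.2 ∧ inS b.1.2.2.2 j ∧
          b.1.2.2.1.getD b.2 false ≠ b.1.2.2.1.getD j false) r1
        ((inS_pp w2 i2).and ((inS_pp w2 j2).and
          (PP.ne (Poly.getD v2 i2 (Poly.const false)) (Poly.getD v2 j2 (Poly.const false))))))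

end PolyTime

theorem isAdj_pp {α : Type} [TEnc α] {M : α → List (List Bool)} (hM : Poly M) :
    PP (fun a => IsAdjMatrix (M a)) := by
  have l0 : Poly (fun a => (M a).length) := Poly.length hM
  have r0 : Poly (fun a => List.range (M a).length) := Poly.range_length hM
  have f1 : Poly (fun b : α × ℕ => b.1) := Poly.fst Poly.id
  have f2 : Poly (fun b : (α × ℕ) × ℕ => b.1.1) := Poly.fst (Poly.fst Poly.id)
  have h1 : PP (fun a => ∀ r ∈ M a, r.length = (M a).length) :=
    PP.ball (r := fun a r => r.length = (M a).length) hM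
      (PP.eq (Poly.length (Poly.snd Poly.id)) (l0.comp (Poly.fst Poly.id)))
  have h2 : PP (fun a => ∀ i ∈ List.range (M a).length, ∀ j ∈ List.range (M a).length,
      entry (M a) i j = entry (M a) j i) :=
    PP.ball (r := fun a i => ∀ j ∈ List.range (M a).length, entry (M a) i j = entry (M a) j i) r0
      (PP.ball (r := fun (b : α × ℕ) j => entry (M b.1) b.2 j = entry (M b.1) j b.2) (r0.comp f1)
        (PP.eq (entry_poly (hM.comp f2) (Poly.snd (Poly.fst Poly.id)) (Poly.snd Poly.id))
          (entry_poly (hM.comp f2) (Poly.snd Poly.id) (Poly.snd (Poly.fst Poly.id)))))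
  have h3 : PP (fun a => ∀ i ∈ List.range (M a).length, entry (M a) i i = false) :=
    PP.ball (r := fun a i => entry (M a) i i = false) r0
      (PP.eq (entry_poly (hM.comp f1) (Poly.snd Poly.id) (Poly.snd Poly.id)) (Poly.const false))
  refine (h1.and (h2.and h3)).congr fun a => ?_
  unfold IsAdjMatrix
  simp only [List.mem_range]

/-- Recognition of strongly `2`-divisible graphs is in `Π₃ᵖ`. -/
theorem div_inPi3 : P3.InPi3 (lang fun M : List (List Bool) =>
    IsAdjMatrix M ∧ StronglyDivisible 2 (matGraph M)) := by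
  obtain ⟨b, hb, hb'⟩ := PP.and (isAdj_pp (Poly.fst Poly.id)) chk_pp
  refine P3.inPi3P_of (R := b) hb Polynomial.X fun M => ?_
  rw [Polynomial.eval_X, div_strings M (sz M) (length_lt_sz M).le]
  have h1 : ∀ u v w : List Bool, b (M, u, v, w) = true ↔ IsAdjMatrix M ∧ Chk M u v w :=
    fun u v w => hb' (M, u, v, w)
  simp only [h1]
  constructor
  · rintro ⟨hM, h⟩ u hu
    obtain ⟨v, hv, hw⟩ := h u hu
    exact ⟨v, hv, fun w hw' => ⟨hM, hw w hw'⟩⟩
  · intro h
    refine ⟨?_, fun u hu => ?_⟩
    · obtain ⟨v, _, hw⟩ := h (List.replicate (sz M) false) (by simp)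
      exact (hw (List.replicate (sz M) false) (by simp)).1
    · obtain ⟨v, hv, hw⟩ := h u hu
      exact ⟨v, hv, fun w hw' => (hw w hw').2⟩

/-- **Recognition of strongly `2`-divisible graphs is `Π₃ᵖ`-complete.** -/
theorem div_complete : P3.Pi3Complete (lang fun M : List (List Bool) =>
    IsAdjMatrix M ∧ StronglyDivisible 2 (matGraph M)) :=
  ⟨div_inPi3, P3.pi3Hard_of sdR_poly fun I hI => by
    rw [sdR_correct I hI]
    exact not_congr ⟨fun h => ⟨sdR_isAdj I, h⟩, fun h => h.2⟩⟩

end Pool.Agent.NPC.Zk96SD
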