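import Pool.Agent.Zk96.SD.Unsat

/-!
# Strongly `2`-divisible graphs: a true quantified formula gives a graph with a bad subgraph
-/

namespace Pool.Agent.Zk96.SD

open Pool.Agent.H622R2 (GoodOn)

variable {N : ℕ} {ty : ℕ → ℕ} {Bl : ℕ → ℕ × ℕ → Prop}

/-- The ends of a maximal edge get different colours. -/
theorem edge_ne {V : Type} {R : V → V → Prop} {s : Set V} {c : V → Bool} (hg : GoodOn R s c)
    {u v : V} (hu : u ∈ s) (hv : v ∈ s) (huv : u ≠ v) (h1 : R u v) (h2 : R v u)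
    (hmax : ∀ w ∈ s, w ≠ u → w ≠ v → R w u → R w v → False) : c u ≠ c v := by
  obtain ⟨x, hx, y, hy, hxy⟩ := hg {u, v} (by
    rintro w (rfl | rfl)
    · exact hu
    · exact hv) (by
    rintro x (rfl | rfl) y (rfl | rfl) hne
    · exact absurd rfl hne
    · exact h1
    · exact h2
    · exact absurd rfl hne) (by
    intro w hw hq
    by_contra hcon
    simp only [Set.mem_insert_iff, Set.mem_singleton_iff, not_or] at hcon
    exact hmax w hw hcon.1 hcon.2 (hq u (Or.inl rfl) hcon.1) (hq v (Or.inr rfl) hcon.2))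
    ⟨u, Or.inl rfl, v, Or.inr rfl, huv⟩
  rcases hx with rfl | rfl <;> rcases hy with rfl | rfl
  · exact absurd rfl hxy
  · exact hxy
  · exact Ne.symm hxy
  · exact absurd rfl hxy

/-- The kept literal vertices. -/
def Keep (ty : ℕ → ℕ) (σ : ℕ → Bool) (x : ℕ × ℕ) : Prop :=
  ty x.1 = 1 → x.2 = if σ x.1 then 0 else 1

/-- The bad subgraph. -/
def bad (N : ℕ) (ty : ℕ → ℕ) (σ : ℕ → Bool) : Set U := {x |
  (∃ y : ℕ × ℕ, y.1 ≤ N ∧ okV (ty y.1) y.2 ∧ Keep ty σ y ∧ x = vL y) ∨ (∃ q, q < N ∧ x = vC q) ∨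
  (∃ (y : ℕ × ℕ) (q : ℕ), y.1 ≤ N ∧ anc (ty y.1) y.2 ∧ (y.1 = q ∨ y.1 = q + 1) ∧ q < N ∧
    Keep ty σ y ∧ x = vA y q) ∨
  (∃ (y : ℕ × ℕ) (q : ℕ), y.1 ≤ N ∧ anc (ty y.1) y.2 ∧ (y.1 = q ∨ y.1 = q + 1) ∧ q < N ∧
    Keep ty σ y ∧ x = vB y q) ∨
  (∃ p, p ≤ N ∧ ty p = 2 ∧ x = vM p) ∨ (∃ p, p ≤ N ∧ ty p = 2 ∧ x = vN p)}

theorem bad_sub (σ : ℕ → Bool) : bad N ty σ ⊆ Valid N ty := by
  rintro x (⟨y, h1, h2, _, h3⟩ | ⟨q, h1, h3⟩ | ⟨y, q, h1, h2, h3, h4, _, h5⟩ |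
    ⟨y, q, h1, h2, h3, h4, _, h5⟩ | ⟨p, h1, h2, h3⟩ | ⟨p, h1, h2, h3⟩)
  · exact Or.inl ⟨y, h1, h2, h3⟩
  · exact Or.inr (Or.inl ⟨q, h1, h3⟩)
  · exact Or.inr (Or.inr (Or.inl ⟨y, q, h1, h2, h3, h4, h5⟩))
  · exact Or.inr (Or.inr (Or.inr (Or.inl ⟨y, q, h1, h2, h3, h4, h5⟩)))
  · exact Or.inr (Or.inr (Or.inr (Or.inr (Or.inl ⟨p, h1, h2, h3⟩))))
  · exact Or.inr (Or.inr (Or.inr (Or.inr (Or.inr ⟨p, h1, h2, h3⟩))))

theorem bad_L {σ : ℕ → Bool} {x : ℕ × ℕ} (h : vL x ∈ bad N ty σ) :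
    x.1 ≤ N ∧ okV (ty x.1) x.2 ∧ Keep ty σ x := by
  rcases h with ⟨y, h1, h2, h4, h3⟩ | ⟨q, h1, h3⟩ | ⟨y, q, _, _, _, _, _, h3⟩ |
    ⟨y, q, _, _, _, _, _, h3⟩ | ⟨p, _, _, h3⟩ | ⟨p, _, _, h3⟩
  · rw [vL_inj.1 h3]; exact ⟨h1, h2, h4⟩
  all_goals simp [vL, vC, vA, vB, vM, vN] at h3

/-- A kept literal vertex of a position is determined for type `1`. -/
theorem keep_eq {σ : ℕ → Bool} {x y : ℕ × ℕ} (h1 : x.1 = y.1) (hty : ty x.1 = 1)
    (hx : Keep ty σ x) (hy : Keep ty σ y) : x = y := by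
  refine Prod.ext h1 ?_
  rw [hx hty, hy (h1 ▸ hty), h1]

theorem link_ne {σ : ℕ → Bool} {c : U → Bool}
    (hg : GoodOn (R ty Bl) (bad N ty σ) c)
    {x : ℕ × ℕ} {q : ℕ} (h1 : x.1 ≤ N) (h2 : anc (ty x.1) x.2) (h3 : x.1 = q ∨ x.1 = q + 1)
    (h4 : q < N) (h5 : Keep ty σ x) : c (vL x) ≠ c (vC q) := by
  have mL : vL x ∈ bad N ty σ := Or.inl ⟨x, h1, h2.okV, h5, rfl⟩
  have mC : vC q ∈ bad N ty σ := Or.inr (Or.inl ⟨q, h4, rfl⟩)
  have mA : vA x q ∈ bad N ty σ := Or.inr (Or.inr (Or.inl ⟨x, q, h1, h2, h3, h4, h5, rfl⟩))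
  have mB : vB x q ∈ bad N ty σ :=
    Or.inr (Or.inr (Or.inr (Or.inl ⟨x, q, h1, h2, h3, h4, h5, rfl⟩)))
  have eLA : c (vL x) ≠ c (vA x q) := by
    apply edge_ne hg mL mA (by simp [vL, vA]) ((R_LA _ _ _).2 ⟨rfl, Or.inl rfl⟩)
      (R_symm ((R_LA _ _ _).2 ⟨rfl, Or.inl rfl⟩))
    intro w hw hwu hwv hRu hRv
    rcases bad_sub σ hw with ⟨y, g1, g2, rfl⟩ | ⟨q', g1, rfl⟩ | ⟨y, q', _, _, _, _, rfl⟩ |
      ⟨y, q', _, _, _, _, rfl⟩ | ⟨p, _, _, rfl⟩ | ⟨p, _, _, rfl⟩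
    · have g3 := bad_L hw
      rw [R_LA] at hRv
      apply hwu
      rw [vL_inj]
      rcases hRv.2 with h | h
      · exact Prod.ext hRv.1 h
      · exact keep_eq hRv.1 h g3.2.2 h5
    · exact R_CA _ _ _ hRv
    · exact R_AA _ _ _ _ hRv
    · have g3 := (R_AB _ _ _ _).1 (R_symm hRv)
      have g4 := (R_LB _ _ _).1 (R_symm hRu)
      rw [← g3.1] at g4
      exact g4.2.2 rfl
    · exact R_AM _ _ _ (R_symm hRv)
    · exact R_AN _ _ _ (R_symm hRv)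
  have eAB : c (vA x q) ≠ c (vB x q) := by
    apply edge_ne hg mA mB (by simp [vB, vA]) ((R_AB _ _ _ _).2 ⟨rfl, rfl⟩)
      (R_symm ((R_AB _ _ _ _).2 ⟨rfl, rfl⟩))
    intro w hw hwu hwv hRu hRv
    rcases bad_sub σ hw with ⟨y, g1, g2, rfl⟩ | ⟨q', g1, rfl⟩ | ⟨y, q', _, _, _, _, rfl⟩ |
      ⟨y, q', _, _, _, _, rfl⟩ | ⟨p, _, _, rfl⟩ | ⟨p, _, _, rfl⟩
    · have g3 := bad_L hw
      rw [R_LB] at hRv
      have := keep_eq hRv.1 hRv.2.1 g3.2.2 h5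
      exact hRv.2.2 (by rw [this])
    · exact R_CA _ _ _ hRu
    · exact R_AA _ _ _ _ hRu
    · exact R_BB _ _ _ _ hRv
    · exact R_AM _ _ _ (R_symm hRu)
    · exact R_AN _ _ _ (R_symm hRu)
  have eBC : c (vB x q) ≠ c (vC q) := by
    apply edge_ne hg mB mC (by simp [vB, vC]) (R_symm ((R_CB _ _ _).2 rfl))
      ((R_CB _ _ _).2 rfl)
    intro w hw hwu hwv hRu hRv
    rcases bad_sub σ hw with ⟨y, g1, g2, rfl⟩ | ⟨q', g1, rfl⟩ | ⟨y, q', _, _, _, _, rfl⟩ |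
      ⟨y, q', _, _, _, _, rfl⟩ | ⟨p, _, _, rfl⟩ | ⟨p, _, _, rfl⟩
    · have g3 := bad_L hw
      rw [R_LB] at hRu
      have := keep_eq hRu.1 hRu.2.1 g3.2.2 h5
      exact hRu.2.2 (by rw [this])
    · exact R_CC _ _ hRv
    · exact R_CA _ _ _ (R_symm hRv)
    · exact R_BB _ _ _ _ hRu
    · exact R_BM _ _ _ (R_symm hRu)
    · exact R_BN _ _ _ (R_symm hRu)
  revert eLA eAB eBC
  cases c (vL x) <;> cases c (vA x q) <;> cases c (vB x q) <;> cases c (vC q) <;> simp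

theorem direct_ne {σ : ℕ → Bool} {c : U → Bool} (hg : GoodOn (R ty Bl) (bad N ty σ) c)
    {p : ℕ} (h1 : p ≤ N) (h2 : ty p = 2) : c (vL (p, 0)) ≠ c (vL (p, 1)) := by
  have hk : ∀ a, Keep ty σ (p, a) := fun a h => by
    simp only at h
    omega
  have m0 : vL (p, 0) ∈ bad N ty σ := Or.inl ⟨(p, 0), h1, by simp [okV, h2], hk 0, rfl⟩
  have m1 : vL (p, 1) ∈ bad N ty σ := Or.inl ⟨(p, 1), h1, by simp [okV, h2], hk 1, rfl⟩
  have mM : vM p ∈ bad N ty σ := Or.inr (Or.inr (Or.inr (Or.inr (Or.inl ⟨p, h1, h2, rfl⟩))))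
  have mN : vN p ∈ bad N ty σ := Or.inr (Or.inr (Or.inr (Or.inr (Or.inr ⟨p, h1, h2, rfl⟩))))
  have e0M : c (vL (p, 0)) ≠ c (vM p) := by
    apply edge_ne hg m0 mM (by simp [vL, vM]) ((R_LM _ _).2 ⟨rfl, rfl⟩)
      (R_symm ((R_LM _ _).2 ⟨rfl, rfl⟩))
    intro w hw hwu hwv hRu hRv
    rcases bad_sub σ hw with ⟨y, g1, g2, rfl⟩ | ⟨q', g1, rfl⟩ | ⟨y, q', _, _, _, _, rfl⟩ |
      ⟨y, q', _, _, _, _, rfl⟩ | ⟨p', _, _, rfl⟩ | ⟨p', _, _, rfl⟩
    · have := (R_LM _ _).1 hRv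
      exact hwu (by rw [vL_inj]; exact Prod.ext this.1 this.2)
    · exact R_CM _ _ hRv
    · exact R_AM _ _ _ hRv
    · exact R_BM _ _ _ hRv
    · exact R_MM _ _ hRv
    · have := (R_LN _ _).1 (R_symm hRu)
      simp at this
  have eMN : c (vM p) ≠ c (vN p) := by
    apply edge_ne hg mM mN (by simp [vN, vM]) ((R_MN _ _).2 rfl) (R_symm ((R_MN _ _).2 rfl))
    intro w hw hwu hwv hRu hRv
    rcases bad_sub σ hw with ⟨y, g1, g2, rfl⟩ | ⟨q', g1, rfl⟩ | ⟨y, q', _, _, _, _, rfl⟩ |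
      ⟨y, q', _, _, _, _, rfl⟩ | ⟨p', _, _, rfl⟩ | ⟨p', _, _, rfl⟩
    · have g3 := (R_LM _ _).1 hRu
      have g4 := (R_LN _ _).1 hRv
      omega
    · exact R_CM _ _ hRu
    · exact R_AM _ _ _ hRu
    · exact R_BM _ _ _ hRu
    · exact R_MM _ _ hRu
    · exact R_NN _ _ hRv
  have eN1 : c (vN p) ≠ c (vL (p, 1)) := by
    apply edge_ne hg mN m1 (by simp [vN, vL]) (R_symm ((R_LN _ _).2 ⟨rfl, rfl⟩))
      ((R_LN _ _).2 ⟨rfl, rfl⟩)
    intro w hw hwu hwv hRu hRv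
    rcases bad_sub σ hw with ⟨y, g1, g2, rfl⟩ | ⟨q', g1, rfl⟩ | ⟨y, q', _, _, _, _, rfl⟩ |
      ⟨y, q', _, _, _, _, rfl⟩ | ⟨p', _, _, rfl⟩ | ⟨p', _, _, rfl⟩
    · have := (R_LN _ _).1 hRu
      exact hwv (by rw [vL_inj]; exact Prod.ext this.1 this.2)
    · exact R_CN _ _ hRu
    · exact R_AN _ _ _ hRu
    · exact R_BN _ _ _ hRu
    · have := (R_LM _ _).1 (R_symm hRv)
      simp at this
    · exact R_NN _ _ hRu
  revert e0M eMN eN1
  cases c (vL (p, 0)) <;> cases c (vM p) <;> cases c (vN p) <;> cases c (vL (p, 1)) <;> simp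

/-- **A true formula gives a graph with a bad induced subgraph.** -/
theorem not_good (hN : 1 ≤ N) (hty : ∀ p, ty p ≤ 3)
    (hS : ∃ σ : ℕ → Bool, ∀ τ : ℕ → Bool, ∃ ζ : ℕ → Bool, ∀ q, q < N →
      ∃ x : ℕ × ℕ, x.1 ≤ N ∧ okV (ty x.1) x.2 ∧ Bl q x ∧ Sel ty σ τ ζ x) :
    ∃ s, s ⊆ Valid N ty ∧ ¬ ∃ c, GoodOn (R ty Bl) s c := by
  obtain ⟨σ, hσ⟩ := hS
  refine ⟨bad N ty σ, bad_sub σ, ?_⟩
  rintro ⟨c, hg⟩
  -- a standard anchor of every position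
  let st : ℕ → ℕ × ℕ := fun p => (p, if ty p = 1 then (if σ p then 0 else 1) else
    if ty p = 2 then 2 else 0)
  have hst : ∀ p, anc (ty (st p).1) (st p).2 ∧ Keep ty σ (st p) := by
    intro p
    have h3 := hty p
    refine ⟨?_, ?_⟩
    · simp only [st, anc]
      split_ifs <;> omega
    · intro h
      simp only [st] at h ⊢
      rw [if_pos h]
  have hanc : ∀ x y : ℕ × ℕ, ∀ q, q < N → (x.1 = q ∨ x.1 = q + 1) → (y.1 = q ∨ y.1 = q + 1) →
      anc (ty x.1) x.2 → anc (ty y.1) y.2 → Keep ty σ x → Keep ty σ y → c (vL x) = c (vL y) := by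
    intro x y q hq hx hy hxa hya hxk hyk
    have h1 := link_ne hg (x := x) (q := q) (by omega) hxa hx hq hxk
    have h2 := link_ne hg (x := y) (q := q) (by omega) hya hy hq hyk
    revert h1 h2
    cases c (vL x) <;> cases c (vL y) <;> cases c (vC q) <;> simp
  have hall0 : ∀ p, p ≤ N → c (vL (st p)) = c (vL (st 0)) := by
    intro p
    induction p with
    | zero => intro _; rfl
    | succ p ih =>
      intro hp
      rw [← ih (by omega)]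
      exact hanc _ _ p (by omega) (Or.inr rfl) (Or.inl rfl) (hst _).1 (hst _).1 (hst _).2
        (hst _).2
  have hall : ∀ x : ℕ × ℕ, x.1 ≤ N → anc (ty x.1) x.2 → Keep ty σ x →
      c (vL x) = c (vL (st 0)) := by
    intro x hx hxa hxk
    rw [← hall0 x.1 hx]
    by_cases h : x.1 = 0
    · exact hanc _ _ 0 (by omega) (Or.inl h) (Or.inl h) hxa (hst _).1 hxk (hst _).2
    · exact hanc _ _ (x.1 - 1) (by omega) (Or.inr (by omega))
        (Or.inr (by simp only [st]; omega)) hxa (hst _).1 hxk (hst _).2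
  generalize hρ : c (vL (st 0)) = ρ at hall hall0
  obtain ⟨ζ, hζ⟩ := hσ (fun p => c (vL (p, 0)) == ρ)
  generalize hτ : (fun p => c (vL (p, 0)) == ρ) = τ at hζ
  -- the chosen clique
  let InT : ℕ × ℕ → Prop := fun x => x.1 ≤ N ∧ okV (ty x.1) x.2 ∧
    (Sel ty σ τ ζ x ∨ (ty x.1 = 2 ∧ x.2 = if τ x.1 then 2 else 3))
  have hInK : ∀ x, InT x → Keep ty σ x := by
    intro x hx h
    rcases hx.2.2 with (⟨h1, _⟩ | ⟨_, h2⟩ | ⟨h1, _⟩ | ⟨h1, _⟩) | ⟨h1, _⟩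
    · omega
    · exact h2
    · omega
    · omega
    · omega
  have hcol : ∀ x, InT x → c (vL x) = ρ := by
    intro x hx
    have hk := hInK x hx
    have hxe : x = (x.1, x.2) := rfl
    rcases hx.2.2 with (⟨h1, h2⟩ | ⟨h1, h2⟩ | ⟨h1, h2⟩ | ⟨h1, h2⟩) | ⟨h1, h2⟩
    · exact hall x hx.1 (Or.inl ⟨h1, h2⟩) hk
    · refine hall x hx.1 (Or.inr (Or.inl ⟨Or.inl h1, ?_⟩)) hk
      rw [h2]; split_ifs <;> omega
    · have h3 := direct_ne hg hx.1 h1
      have h4 : τ x.1 = (c (vL (x.1, 0)) == ρ) := by rw [← hτ]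
      rw [hxe]
      by_cases h5 : τ x.1 = true
      · rw [if_pos h5] at h2
        rw [h2]
        rw [h5] at h4
        simpa using h4.symm
      · rw [if_neg h5] at h2
        rw [h2]
        have h6 : c (vL (x.1, 0)) ≠ ρ := by
          intro h7
          rw [h7] at h4
          simp at h4
          exact h5 h4
        revert h3 h6
        cases c (vL (x.1, 0)) <;> cases c (vL (x.1, 1)) <;> cases ρ <;> simp
    · refine hall x hx.1 (Or.inr (Or.inl ⟨Or.inr h1, ?_⟩)) hk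
      rw [h2]; split_ifs <;> omega
    · refine hall x hx.1 (Or.inr (Or.inr ⟨h1, ?_⟩)) hk
      rw [h2]; split_ifs <;> omega
  -- every position meets the clique
  let el : ℕ → ℕ × ℕ := fun p => (p, if ty p = 0 then 0 else if ty p = 1 then
    (if σ p then 0 else 1) else if ty p = 2 then (if τ p then 0 else 1) else
      if ζ p then 0 else 1)
  have hel : ∀ p, p ≤ N → InT (el p) := by
    intro p hp
    have h3 := hty p
    have hc : ty p = 0 ∨ ty p = 1 ∨ ty p = 2 ∨ ty p = 3 := by omega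
    refine ⟨hp, ?_, Or.inl ?_⟩
    · rcases hc with h | h | h | h <;> simp only [el, okV, h] <;> simp <;> split_ifs <;> omega
    · rcases hc with h | h | h | h <;> simp [el, Sel, h]
  have hmemT : ∀ x, InT x → vL x ∈ bad N ty σ := fun x hx =>
    Or.inl ⟨x, hx.1, hx.2.1, hInK x hx, rfl⟩
  have huniq : ∀ x y, InT x → InT y → x ≠ y → RL ty x y := by
    rintro ⟨x1, x2⟩ ⟨y1, y2⟩ hx hy hne
    by_cases h : x1 = y1
    · subst h
      right
      simp only [InT, Sel] at hx hy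
      rcases hx.2.2 with (⟨h1, h2⟩ | ⟨h1, h2⟩ | ⟨h1, h2⟩ | ⟨h1, h2⟩) | ⟨h1, h2⟩ <;>
      rcases hy.2.2 with (⟨h3, h4⟩ | ⟨h3, h4⟩ | ⟨h3, h4⟩ | ⟨h3, h4⟩) | ⟨h3, h4⟩ <;>
      first
      | (exfalso; omega)
      | (exfalso; apply hne; rw [h2, h4]; done)
      | (refine ⟨h1, rfl, ?_⟩
         simp only
         rw [h2, h4]
         cases τ x1 <;> decide)
    · exact Or.inl h
  obtain ⟨u, ⟨x, hx, rfl⟩, v, ⟨y, hy, rfl⟩, huv⟩ := hg {u | ∃ x, InT x ∧ u = vL x} (by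
      rintro _ ⟨x, hx, rfl⟩
      exact hmemT x hx) (by
      rintro _ ⟨x, hx, rfl⟩ _ ⟨y, hy, rfl⟩ hne
      exact (R_LL _ _).2 (huniq x y hx hy (fun h => hne (by rw [h])))) (by
      intro w hw hadj
      have h0 := hadj (vL (el 0)) ⟨_, hel 0 (by omega), rfl⟩
      have hNN := hadj (vL (el N)) ⟨_, hel N le_rfl, rfl⟩
      rcases bad_sub σ hw with ⟨y, g1, g2, rfl⟩ | ⟨q', g1, rfl⟩ | ⟨y, q', _, _, _, _, rfl⟩ |
        ⟨y, q', _, _, _, _, rfl⟩ | ⟨p', _, _, rfl⟩ | ⟨p', _, _, rfl⟩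
      · refine ⟨y, ⟨g1, g2, ?_⟩, rfl⟩
        by_contra hcon
        have hny : ¬ InT y := fun h => hcon h.2.2
        have hadj' : ∀ x, InT x → RL ty y x := by
          intro x hx
          exact (R_LL _ _).1 (hadj (vL x) ⟨x, hx, rfl⟩ (fun h => hny (by
            rw [vL_inj.1 h]; exact hx)))
        have h5 := hadj' _ (hel y.1 g1)
        rcases h5 with h5 | ⟨h5, h6, h7⟩
        · exact h5 rfl
        · have e5 : (el y.1).2 = if τ y.1 then 0 else 1 := by simp [el, h5]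
          rw [e5] at h7
          have hr : InT (y.1, if τ y.1 then 2 else 3) := by
            refine ⟨g1, ?_, Or.inr ⟨h5, rfl⟩⟩
            simp only [h5]
            cases τ y.1 <;> decide
          rcases hadj' _ hr with h8 | ⟨_, _, h9⟩
          · exact h8 rfl
          · simp only at h9
            have hy3 : y.2 ≤ 3 := by
              unfold okV at g2
              omega
            have hc : y.2 = 0 ∨ y.2 = 1 ∨ y.2 = 2 ∨ y.2 = 3 := by omega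
            rcases hc with h | h | h | h <;> rw [h] at h7 h9 <;> revert h7 h9 <;>
              cases τ y.1 <;> decide
      · exfalso
        obtain ⟨x, hx1, hx2, hx3, hx4⟩ := hζ q' g1
        have := hadj (vL x) ⟨x, ⟨hx1, hx2, Or.inl hx4⟩, rfl⟩ (by simp [vC, vL])
        exact (R_LC _ _).1 (R_symm this) hx3
      · exfalso
        have g3 := ((R_LA _ _ _).1 (R_symm (h0 (by simp [vA, vL])))).1
        have g4 := ((R_LA _ _ _).1 (R_symm (hNN (by simp [vA, vL])))).1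
        simp only [el] at g3 g4
        omega
      · exfalso
        have g3 := ((R_LB _ _ _).1 (R_symm (h0 (by simp [vB, vL])))).1
        have g4 := ((R_LB _ _ _).1 (R_symm (hNN (by simp [vB, vL])))).1
        simp only [el] at g3 g4
        omega
      · exfalso
        have g3 := ((R_LM _ _).1 (R_symm (h0 (by simp [vM, vL])))).1
        have g4 := ((R_LM _ _).1 (R_symm (hNN (by simp [vM, vL])))).1
        simp only [el] at g3 g4
        omega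
      · exfalso
        have g3 := ((R_LN _ _).1 (R_symm (h0 (by simp [vN, vL])))).1
        have g4 := ((R_LN _ _).1 (R_symm (hNN (by simp [vN, vL])))).1
        simp only [el] at g3 g4
        omega)
      ⟨_, ⟨_, hel 0 (by omega), rfl⟩, _, ⟨_, hel N le_rfl, rfl⟩, by
        intro h
        have := congrArg Prod.fst (vL_inj.1 h)
        simp only [el] at this
        omega⟩
  exact huv ((hcol x hx).trans (hcol y hy).symm)

end Pool.Agent.Zk96.SD
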