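import Pool.Agent.Zk96.SD.Core

/-!
# Strongly `2`-divisible graphs: a false quantified formula gives a divisible graph
-/

namespace Pool.Agent.Zk96.SD

open Pool.Agent.H622R2 (GoodOn)

/-- The literal vertices selected by three assignments. -/
def Sel (ty : ℕ → ℕ) (σ τ ζ : ℕ → Bool) (x : ℕ × ℕ) : Prop :=
  (ty x.1 = 0 ∧ x.2 = 0) ∨ (ty x.1 = 1 ∧ x.2 = if σ x.1 then 0 else 1) ∨
  (ty x.1 = 2 ∧ x.2 = if τ x.1 then 0 else 1) ∨ (ty x.1 = 3 ∧ x.2 = if ζ x.1 then 0 else 1)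

/-- The structural properties of an instance. -/
structure Inst (N : ℕ) (ty : ℕ → ℕ) (Bl : ℕ → ℕ × ℕ → Prop) : Prop where
  ty_le : ∀ p, ty p ≤ 3
  dummy : ∀ q, q < N → ty q = 0 ∨ ty (q + 1) = 0
  own : ∀ q x, Bl q x → x.1 ≠ q ∧ x.1 ≠ q + 1
  yb : ∀ q p a, ty p = 2 → Bl q (p, a) → a ≤ 1
  yb2 : ∀ q p, ty p = 2 → ¬ (Bl q (p, 0) ∧ Bl q (p, 1))
  guard : ∀ a z, a < z → z ≤ N → ¬ (a = 0 ∧ z = N) →
    ∃ q, a ≤ q ∧ q < z ∧ ∀ x : ℕ × ℕ, a ≤ x.1 → x.1 ≤ z → ¬ Bl q x

/-- Maximal cliques of a path on four vertices, as a Boolean function. -/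
def mc (a0 a1 a2 a3 t0 t1 t2 t3 : Bool) : Bool :=
  (!t0 || a0) && (!t1 || a1) && (!t2 || a2) && (!t3 || a3) &&
  !(t0 && t3) && !(t1 && t2) && !(t2 && t3) &&
  (!a0 || t3 || t0) && (!a1 || t2 || t1) && (!a2 || t1 || t3 || t2) && (!a3 || t0 || t2 || t3)

variable {N : ℕ} {ty : ℕ → ℕ} {Bl : ℕ → ℕ × ℕ → Prop}

/-- A maximal clique meets every nonempty block. -/
theorem MaxC.meets {A T : Set (ℕ × ℕ)} (hT : MaxC ty A T) {y : ℕ × ℕ} (hy : y ∈ A) :
    ∃ x ∈ T, x.1 = y.1 := by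
  by_contra hcon
  push Not at hcon
  have : y ∈ T := by
    apply hT.2.2 y hy
    intro x hx _
    exact Or.inl (Ne.symm (hcon x hx))
  exact hcon y this rfl

theorem mc_of_maxC {A T : Set (ℕ × ℕ)} (hT : MaxC ty A T) {p : ℕ} (hp : ty p = 2)
    (hA : ∀ a, (p, a) ∈ A → a ≤ 3) (a t : ℕ → Bool) (ha : ∀ i, a i = true ↔ (p, i) ∈ A)
    (ht : ∀ i, t i = true ↔ (p, i) ∈ T) :
    mc (a 0) (a 1) (a 2) (a 3) (t 0) (t 1) (t 2) (t 3) = true := by
  have h1 : ∀ a, (p, a) ∈ T → (p, a) ∈ A := fun a h => hT.1 h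
  have hadj : ∀ a b, (p, a) ∈ T → (p, b) ∈ T → a ≠ b → E4 a b ∨ E4 b a := by
    intro a b ha hb hab
    rcases hT.2.1 _ ha _ hb (fun h => hab (Prod.ext_iff.1 h).2) with h | ⟨_, _, h⟩
    · exact absurd rfl h
    · exact h
  have h03 : ¬ ((p, 0) ∈ T ∧ (p, 3) ∈ T) := by
    rintro ⟨h, h'⟩
    exact absurd (hadj 0 3 h h' (by decide)) (by decide)
  have h12 : ¬ ((p, 1) ∈ T ∧ (p, 2) ∈ T) := by
    rintro ⟨h, h'⟩
    exact absurd (hadj 1 2 h h' (by decide)) (by decide)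
  have h23 : ¬ ((p, 2) ∈ T ∧ (p, 3) ∈ T) := by
    rintro ⟨h, h'⟩
    exact absurd (hadj 2 3 h h' (by decide)) (by decide)
  have hmax : ∀ a, (p, a) ∈ A → (∀ b, b ≤ 3 → (p, b) ∈ T → a ≠ b → E4 a b ∨ E4 b a) →
      (p, a) ∈ T := by
    intro a ha h
    apply hT.2.2 _ ha
    rintro ⟨p', b⟩ hb hne
    by_cases hpp : p = p'
    · subst hpp
      exact Or.inr ⟨hp, rfl, h b (hA b (h1 b hb)) hb (fun h' => hne (by rw [h']))⟩
    · exact Or.inl hpp
  have m0 : (p, 0) ∈ A → (p, 3) ∉ T → (p, 0) ∈ T := by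
    intro h h3
    refine hmax 0 h (fun b hb hbT hne => ?_)
    have : b = 1 ∨ b = 2 ∨ b = 3 := by omega
    rcases this with rfl | rfl | rfl
    · decide
    · decide
    · exact absurd hbT h3
  have m1 : (p, 1) ∈ A → (p, 2) ∉ T → (p, 1) ∈ T := by
    intro h h3
    refine hmax 1 h (fun b hb hbT hne => ?_)
    have : b = 0 ∨ b = 2 ∨ b = 3 := by omega
    rcases this with rfl | rfl | rfl
    · decide
    · exact absurd hbT h3
    · decide
  have m2 : (p, 2) ∈ A → (p, 1) ∉ T → (p, 3) ∉ T → (p, 2) ∈ T := by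
    intro h h3 h4
    refine hmax 2 h (fun b hb hbT hne => ?_)
    have : b = 0 ∨ b = 1 ∨ b = 3 := by omega
    rcases this with rfl | rfl | rfl
    · decide
    · exact absurd hbT h3
    · exact absurd hbT h4
  have m3 : (p, 3) ∈ A → (p, 0) ∉ T → (p, 2) ∉ T → (p, 3) ∈ T := by
    intro h h3 h4
    refine hmax 3 h (fun b hb hbT hne => ?_)
    have : b = 0 ∨ b = 1 ∨ b = 2 := by omega
    rcases this with rfl | rfl | rfl
    · exact absurd hbT h3
    · decide
    · exact absurd hbT h4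
  have g0 := h1 0
  have g1 := h1 1
  have g2 := h1 2
  have g3 := h1 3
  have hf : ∀ b : Bool, b = false ↔ ¬ (b = true) := by decide
  simp only [mc, Bool.and_eq_true, Bool.or_eq_true, Bool.not_eq_true', Bool.and_eq_false_iff]
  simp only [hf, ha, ht]
  refine ⟨⟨⟨⟨⟨⟨⟨⟨⟨⟨not_or_of_imp g0, not_or_of_imp g1⟩, not_or_of_imp g2⟩, not_or_of_imp g3⟩,
    not_and_or.1 h03⟩, not_and_or.1 h12⟩, not_and_or.1 h23⟩, ?_⟩, ?_⟩, ?_⟩, ?_⟩
  · by_contra hc
    push Not at hc
    exact hc.2 (m0 hc.1.1 hc.1.2)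
  · by_contra hc
    push Not at hc
    exact hc.2 (m1 hc.1.1 hc.1.2)
  · by_contra hc
    push Not at hc
    exact hc.2 (m2 hc.1.1.1 hc.1.1.2 hc.1.2)
  · by_contra hc
    push Not at hc
    exact hc.2 (m3 hc.1.1.1 hc.1.1.2 hc.1.2)

/-- The colour of the first vertex of a path. -/
def eY (s0 s1 s2 s3 c : Bool) : Bool := xor c (s1 && (!s0 || (!s3 && s2)))

/-- The colour met by all maximal cliques of the unblocked part of a path. -/
def kY (s0 s1 s2 s3 b0 c : Bool) : Bool := xor c (s0 && s1 && !s2 && !s3 && b0)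

theorem fact_rule : ∀ s0 s1 s2 s3 b0 b1 t0 t1 t2 t3 c : Bool, !(b0 && b1) →
    mc (s0 && !b0) (s1 && !b1) s2 s3 t0 t1 t2 t3 = true →
    ((s0 && !b0) || (s1 && !b1) || s2 || s3) →
    ((t0 && (eY s0 s1 s2 s3 c == kY s0 s1 s2 s3 b0 c)) ||
      (t1 && ((!eY s0 s1 s2 s3 c) == kY s0 s1 s2 s3 b0 c)) ||
      (t2 && (c == kY s0 s1 s2 s3 b0 c)) || (t3 && (c == kY s0 s1 s2 s3 b0 c))) = true := by
  decide

/-- Literal vertices in `s` are valid. -/
theorem valid_L {s : Set U} (hs : s ⊆ Valid N ty) {x : ℕ × ℕ} (hx : vL x ∈ s) :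
    x.1 ≤ N ∧ okV (ty x.1) x.2 := by
  rcases hs hx with ⟨y, h1, h2, h3⟩ | ⟨q, _, h3⟩ | ⟨y, q, _, _, _, _, h3⟩ |
    ⟨y, q, _, _, _, _, h3⟩ | ⟨p, _, _, h3⟩ | ⟨p, _, _, h3⟩
  · rw [vL_inj.1 h3]; exact ⟨h1, h2⟩
  all_goals simp [vL, vC, vA, vB, vM, vN] at h3

theorem valid_C {s : Set U} (hs : s ⊆ Valid N ty) {q : ℕ} (hx : vC q ∈ s) : q < N := by
  rcases hs hx with ⟨y, h1, h2, h3⟩ | ⟨q, h1, h3⟩ | ⟨y, q, _, _, _, _, h3⟩ |
    ⟨y, q, _, _, _, _, h3⟩ | ⟨p, _, _, h3⟩ | ⟨p, _, _, h3⟩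
  · simp [vL, vC] at h3
  · rw [vC_inj.1 h3]; exact h1
  all_goals simp [vC, vA, vB, vM, vN] at h3

theorem valid_A {s : Set U} (hs : s ⊆ Valid N ty) {x : ℕ × ℕ} {q : ℕ} (hx : vA x q ∈ s) :
    anc (ty x.1) x.2 ∧ (x.1 = q ∨ x.1 = q + 1) := by
  rcases hs hx with ⟨y', _, _, h3⟩ | ⟨q, _, h3⟩ | ⟨y', q', _, h1, h2, _, h3⟩ |
    ⟨y', q, _, _, _, _, h3⟩ | ⟨p, _, _, h3⟩ | ⟨p, _, _, h3⟩
  · simp [vL, vA] at h3
  · simp [vC, vA] at h3
  · rw [vA_inj] at h3
    rw [h3.1, h3.2]; exact ⟨h1, h2⟩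
  all_goals simp [vA, vB, vM, vN] at h3

open Classical in
/-- The rule colouring of the literal vertices given the sides of the positions. -/
noncomputable def fr (ty : ℕ → ℕ) (s : Set U) (σ : ℕ → Bool) (x : ℕ × ℕ) : Bool :=
  if ty x.1 = 2 then
    if x.2 = 0 then eY (decide (vL (x.1, 0) ∈ s)) (decide (vL (x.1, 1) ∈ s))
      (decide (vL (x.1, 2) ∈ s)) (decide (vL (x.1, 3) ∈ s)) (σ x.1)
    else if x.2 = 1 then !eY (decide (vL (x.1, 0) ∈ s)) (decide (vL (x.1, 1) ∈ s))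
      (decide (vL (x.1, 2) ∈ s)) (decide (vL (x.1, 3) ∈ s)) (σ x.1)
    else σ x.1
  else σ x.1

open Classical in
/-- The colour met by all maximal cliques at a position, when `B` is blocked. -/
noncomputable def kap (ty : ℕ → ℕ) (s : Set U) (σ : ℕ → Bool) (B : ℕ × ℕ → Prop) (p : ℕ) :
    Bool :=
  if ty p = 2 then kY (decide (vL (p, 0) ∈ s)) (decide (vL (p, 1) ∈ s))
      (decide (vL (p, 2) ∈ s)) (decide (vL (p, 3) ∈ s)) (decide (B (p, 0))) (σ p)
  else σ p

theorem kap_own {s : Set U} {σ : ℕ → Bool} {B : ℕ × ℕ → Prop} {p : ℕ} (h : ¬ B (p, 0)) :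
    kap ty s σ B p = σ p := by
  unfold kap kY
  split_ifs
  · simp [h]
  · rfl

theorem fr_anc {s : Set U} {σ : ℕ → Bool} {x : ℕ × ℕ} (h : anc (ty x.1) x.2) :
    fr ty s σ x = σ x.1 := by
  unfold fr
  unfold anc at h
  split_ifs <;> first | rfl | (exfalso; omega)

theorem fr_ne {s : Set U} {σ : ℕ → Bool} {x : ℕ × ℕ} (h : ty x.1 ≠ 2) :
    fr ty s σ x = σ x.1 := by
  unfold fr
  rw [if_neg h]

/-- **All maximal cliques of the unblocked part meet the colour `kap`.** -/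
theorem meet_kap {s : Set U} (hs : s ⊆ Valid N ty) (σ : ℕ → Bool) (B : ℕ × ℕ → Prop)
    (hB1 : ∀ p a, ty p = 2 → B (p, a) → a ≤ 1)
    (hB2 : ∀ p, ty p = 2 → ¬ (B (p, 0) ∧ B (p, 1))) (T : Set (ℕ × ℕ))
    (hT : MaxC ty {x | x ∈ PL s ∧ ¬ B x} T) (y : ℕ × ℕ) (hy : y ∈ PL s) (hyB : ¬ B y) :
    ∃ x ∈ T, x.1 = y.1 ∧ fr ty s σ x = kap ty s σ B y.1 := by
  classical
  by_cases hp : ty y.1 = 2
  · have hA : ∀ a, (y.1, a) ∈ {x | x ∈ PL s ∧ ¬ B x} → a ≤ 3 := by
      intro a ha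
      have := (valid_L hs ha.1).2
      unfold okV at this
      simp only at this
      omega
    have h1 := mc_of_maxC hT hp hA (fun i => decide (vL (y.1, i) ∈ s) && !decide (B (y.1, i)))
      (fun i => decide ((y.1, i) ∈ T)) (fun i => by simp [PL]) (fun i => by simp)
    have hb2 : ¬ B (y.1, 2) := fun h => by
      have := hB1 _ _ hp h
      omega
    have hb3 : ¬ B (y.1, 3) := fun h => by
      have := hB1 _ _ hp h
      omega
    have e2 : (decide (vL (y.1, 2) ∈ s) && !decide (B (y.1, 2))) = decide (vL (y.1, 2) ∈ s) := by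
      simp [hb2]
    have e3 : (decide (vL (y.1, 3) ∈ s) && !decide (B (y.1, 3))) = decide (vL (y.1, 3) ∈ s) := by
      simp [hb3]
    rw [e2, e3] at h1
    have h2 := fact_rule _ _ _ _ (decide (B (y.1, 0))) (decide (B (y.1, 1))) _ _ _ _ (σ y.1)
      (by
        have := hB2 _ hp
        simp only [Bool.not_eq_true', Bool.and_eq_false_iff, decide_eq_false_iff_not]
        exact not_and_or.1 this) h1 (by
        have hy3 := (valid_L hs hy).2
        unfold okV at hy3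
        have hcase : y.2 = 0 ∨ y.2 = 1 ∨ y.2 = 2 ∨ y.2 = 3 := by omega
        have hy' : y = (y.1, y.2) := rfl
        have hy4 : vL y ∈ s := hy
        rw [hy'] at hy4 hyB
        rcases hcase with h | h | h | h <;> rw [h] at hy4 hyB <;> simp [hy4, hyB])
    simp only [Bool.or_eq_true, Bool.and_eq_true, decide_eq_true_eq, beq_iff_eq] at h2
    have hk : kap ty s σ B y.1 = kY (decide (vL (y.1, 0) ∈ s)) (decide (vL (y.1, 1) ∈ s))
        (decide (vL (y.1, 2) ∈ s)) (decide (vL (y.1, 3) ∈ s)) (decide (B (y.1, 0))) (σ y.1) := by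
      unfold kap
      rw [if_pos hp]
    rw [hk]
    rcases h2 with ((⟨h3, h4⟩ | ⟨h3, h4⟩) | ⟨h3, h4⟩) | ⟨h3, h4⟩
    · refine ⟨_, h3, rfl, ?_⟩
      rw [← h4]
      simp [fr, hp]
    · refine ⟨_, h3, rfl, ?_⟩
      rw [← h4]
      simp [fr, hp]
    · refine ⟨_, h3, rfl, ?_⟩
      rw [← h4]
      simp [fr, hp]
    · refine ⟨_, h3, rfl, ?_⟩
      rw [← h4]
      simp [fr, hp]
  · obtain ⟨x, hx, hxy⟩ := hT.meets (y := y) ⟨hy, hyB⟩
    refine ⟨x, hx, hxy, ?_⟩
    rw [fr_ne (by rw [hxy]; exact hp), hxy]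
    unfold kap
    rw [if_neg hp]

/-- **The rule colouring is good.** -/
theorem good_rule (hI : Inst N ty Bl) {s : Set U} (hs : s ⊆ Valid N ty) (σ : ℕ → Bool)
    (hval : ∀ q x y, Act ty s x q → Act ty s y q → σ x.1 = σ y.1)
    (hTT : ∀ T : Set (ℕ × ℕ), MaxC ty (PL s) T → (∃ x ∈ T, ∃ y ∈ T, x ≠ y) →
      (∀ q, vC q ∈ s → ∃ x ∈ T, Bl q x) → ∃ x ∈ PL s, ∃ y ∈ PL s, σ x.1 ≠ σ y.1) :
    ∃ c : U → Bool, GoodOn (R ty Bl) s c := by
  classical
  apply good_of_f hs (fr ty s σ)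
  · intro x hx
    rw [fr_ne (by rw [hx]; decide), fr_ne (by simp only [opp]; rw [hx]; decide)]
    rfl
  · intro p hp
    simp only [fr, hp, if_true]
    generalize eY _ _ _ _ _ = z
    cases z <;> simp
  · intro q hq
    have hB1 : ∀ p a, ty p = 2 → Bl q (p, a) → a ≤ 1 := fun p a => hI.yb q p a
    have hB2 : ∀ p, ty p = 2 → ¬ (Bl q (p, 0) ∧ Bl q (p, 1)) := fun p => hI.yb2 q p
    by_cases hact : ∃ x, Act ty s x q
    · obtain ⟨x, hx⟩ := hact
      have hxA := valid_A hs hx.2.2.1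
      have hown : ∀ a, ¬ Bl q (x.1, a) := by
        intro a ha
        have := hI.own _ _ ha
        simp only at this
        omega
      refine ⟨!σ x.1, ?_, ?_⟩
      · intro y hy
        rw [fr_anc (valid_A hs hy.2.2.1).1, hval q y x hy hx]
        cases σ x.1 <;> simp
      · intro T hT _
        obtain ⟨z, hz, _, hz2⟩ := meet_kap hs σ (Bl q) hB1 hB2 T hT x hx.1 (hown _)
        refine ⟨z, hz, ?_⟩
        rw [hz2, kap_own (hown 0)]
        cases σ x.1 <;> simp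
    · by_cases hA : ∃ x, x ∈ PL s ∧ ¬ Bl q x
      · obtain ⟨x, hx, hxB⟩ := hA
        refine ⟨!kap ty s σ (Bl q) x.1, fun y hy => absurd ⟨y, hy⟩ hact, ?_⟩
        intro T hT _
        obtain ⟨z, hz, _, hz2⟩ := meet_kap hs σ (Bl q) hB1 hB2 T hT x hx hxB
        refine ⟨z, hz, ?_⟩
        rw [hz2]
        cases kap ty s σ (Bl q) x.1 <;> simp
      · refine ⟨false, fun y hy => absurd ⟨y, hy⟩ hact, ?_⟩
        intro T hT ⟨x, hx⟩
        exact absurd ⟨x, hT.1 hx⟩ hA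
  · intro T hT hnt hq
    obtain ⟨x, hx, y, hy, hxy⟩ := hTT T hT hnt hq
    have hT' : MaxC ty {x | x ∈ PL s ∧ ¬ (fun _ => False) x} T := by
      have : {x | x ∈ PL s ∧ ¬ (fun _ : ℕ × ℕ => False) x} = PL s := by
        ext; simp
      rw [this]; exact hT
    obtain ⟨z, hz, _, hz2⟩ := meet_kap hs σ (fun _ => False) (fun _ _ _ h => h.elim)
      (fun _ _ h => h.1) T hT' x hx (fun h => h)
    obtain ⟨w, hw, _, hw2⟩ := meet_kap hs σ (fun _ => False) (fun _ _ _ h => h.elim)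
      (fun _ _ h => h.1) T hT' y hy (fun h => h)
    refine ⟨z, hz, w, hw, ?_⟩
    rw [hz2, hw2, kap_own (fun h => h), kap_own (fun h => h)]
    exact hxy
  · exact hI.own

/-- A position whose links may be active. -/
def ActP (ty : ℕ → ℕ) (s : Set U) (p : ℕ) : Prop :=
  (ty p = 0 ∧ vL (p, 0) ∈ s) ∨
  (ty p = 1 ∧ (vL (p, 0) ∈ s ∨ vL (p, 1) ∈ s) ∧ ¬ (vL (p, 0) ∈ s ∧ vL (p, 1) ∈ s)) ∨
  (ty p = 2 ∧ (vL (p, 2) ∈ s ∨ vL (p, 3) ∈ s)) ∨ (ty p = 3 ∧ (vL (p, 0) ∈ s ∨ vL (p, 1) ∈ s))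

theorem actP_of {s : Set U} (hs : s ⊆ Valid N ty) {x : ℕ × ℕ} {q : ℕ} (h : Act ty s x q) :
    ActP ty s x.1 := by
  obtain ⟨h1, h2, h3, h4, h5⟩ := h
  have hx := (valid_A hs h3).1
  unfold anc at hx
  unfold ActP
  have e : x = (x.1, x.2) := rfl
  rw [e] at h1
  rcases hx with ⟨h6, h7⟩ | ⟨h6 | h6, h7⟩ | ⟨h6, h7 | h7⟩
  · rw [h7] at h1
    exact Or.inl ⟨h6, h1⟩
  · have h8 := h5 h6
    have : x.2 = 0 ∨ x.2 = 1 := by omega
    refine Or.inr (Or.inl ⟨h6, ?_⟩)
    simp only [opp] at h8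
    rcases this with h | h <;> rw [h] at h1 h8
    · exact ⟨Or.inl h1, fun h9 => h8 h9.2⟩
    · exact ⟨Or.inr h1, fun h9 => h8 h9.1⟩
  · have : x.2 = 0 ∨ x.2 = 1 := by omega
    refine Or.inr (Or.inr (Or.inr ⟨h6, ?_⟩))
    rcases this with h | h <;> rw [h] at h1
    · exact Or.inl h1
    · exact Or.inr h1
  · rw [h7] at h1
    exact Or.inr (Or.inr (Or.inl ⟨h6, Or.inl h1⟩))
  · rw [h7] at h1
    exact Or.inr (Or.inr (Or.inl ⟨h6, Or.inr h1⟩))

theorem ActP.present {s : Set U} {p : ℕ} (h : ActP ty s p) : ∃ a, vL (p, a) ∈ s := by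
  unfold ActP at h
  rcases h with ⟨_, h⟩ | ⟨_, h | h, _⟩ | ⟨_, h | h⟩ | ⟨_, h | h⟩ <;> exact ⟨_, h⟩

/-- **The case where everything is active.** -/
theorem good_full (hI : Inst N ty Bl) {s : Set U} (hs : s ⊆ Valid N ty)
    (hF : ∀ σ : ℕ → Bool, ∃ τ : ℕ → Bool, ∀ ζ : ℕ → Bool, ∃ q, q < N ∧
      ∀ x, Bl q x → ¬ Sel ty σ τ ζ x)
    (hact : ∀ p, p ≤ N → ActP ty s p) (hc : ∀ q, q < N → vC q ∈ s) :
    ∃ c : U → Bool, GoodOn (R ty Bl) s c := by
  classical
  obtain ⟨τ, hτ⟩ := hF (fun p => decide (vL (p, 0) ∈ s))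
  have hfr : ∀ x : ℕ × ℕ, ty x.1 = 2 ∨ ¬ ty x.1 = 2 := fun x => Classical.em _
  let f : ℕ × ℕ → Bool := fun x => if ty x.1 = 2 then
    (if x.2 = 0 then !τ x.1 else if x.2 = 1 then τ x.1 else false) else false
  have f2 : ∀ x : ℕ × ℕ, ty x.1 ≠ 2 → f x = false := fun x hx => by
    simp only [f, if_neg hx]
  apply good_of_f hs f
  · intro x hx
    rw [f2 x (by rw [hx]; decide), f2 (opp x) (by simp only [opp]; rw [hx]; decide)]
  · intro p hp
    simp only [f, hp, if_true]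
    cases τ p <;> simp
  · intro q hq
    have hqN := valid_C hs hq
    refine ⟨true, ?_, ?_⟩
    · intro x hx
      have h := (valid_A hs hx.2.2.1).1
      have : f x = false := by
        simp only [f]
        unfold anc at h
        split_ifs <;> first | rfl | (exfalso; omega)
      rw [this]; decide
    · intro T hT _
      obtain ⟨p, hp, hpt⟩ : ∃ p, (p = q ∨ p = q + 1) ∧ ty p = 0 := by
        rcases hI.dummy q hqN with h | h
        · exact ⟨q, Or.inl rfl, h⟩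
        · exact ⟨q + 1, Or.inr rfl, h⟩
      obtain ⟨a, ha⟩ := (hact p (by omega)).present
      obtain ⟨z, hz, hz2⟩ := hT.meets (y := (p, a)) ⟨ha, fun h => by
        have := hI.own _ _ h
        simp only at this
        omega⟩
      refine ⟨z, hz, ?_⟩
      rw [f2 z (by rw [hz2, hpt]; decide)]
      decide
  · intro T hT hnt hq
    by_contra hcon
    push Not at hcon
    -- all elements have the colour `false`
    have h0 : ∃ p, p ≤ N ∧ ty p = 0 := by
      by_cases hN : 0 < N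
      · rcases hI.dummy 0 hN with h | h
        · exact ⟨0, by omega, h⟩
        · exact ⟨1, by omega, h⟩
      · obtain ⟨q, hq', _⟩ := hτ (fun _ => true)
        omega
    obtain ⟨p, hp, hpt⟩ := h0
    obtain ⟨a, ha⟩ := (hact p hp).present
    obtain ⟨w, hw, hw2⟩ := hT.meets (y := (p, a)) ha
    have hfw : f w = false := f2 w (by rw [hw2, hpt]; decide)
    have hall : ∀ x ∈ T, f x = false := fun x hx => (hcon x hx w hw).trans hfw
    obtain ⟨q, hqN, hqB⟩ := hτ (fun p => decide ((p, 0) ∈ T))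
    obtain ⟨x, hx, hxB⟩ := hq q (hc q hqN)
    apply hqB x hxB
    have hxv := (valid_L hs (hT.1 hx)).2
    have hxe : x = (x.1, x.2) := rfl
    unfold Sel
    rcases hxv with ⟨h6, h7⟩ | ⟨h6 | h6, h7⟩ | ⟨h6, h7⟩
    · exact Or.inl ⟨h6, h7⟩
    · refine Or.inr (Or.inl ⟨h6, ?_⟩)
      have : x.2 = 0 ∨ x.2 = 1 := by omega
      have hxs : vL x ∈ s := hT.1 hx
      rw [hxe] at hxs
      rcases this with h | h
      · rw [h] at hxs
        simp [hxs, h]
      · rw [h] at hxs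
        have h9 : vL (x.1, 0) ∉ s := by
          intro h10
          rcases hact x.1 (valid_L hs (hT.1 hx)).1 with ⟨h11, _⟩ | ⟨_, _, h11⟩ | ⟨h11, _⟩ |
            ⟨h11, _⟩
          · omega
          · exact h11 ⟨h10, hxs⟩
          · omega
          · omega
        simp [h9, h]
    · refine Or.inr (Or.inr (Or.inr ⟨h6, ?_⟩))
      have : x.2 = 0 ∨ x.2 = 1 := by omega
      rcases this with h | h
      · have hxT := hx
        rw [hxe, h] at hxT
        simp [hxT, h]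
      · have h9 : (x.1, 0) ∉ T := by
          intro h10
          rcases hT.2.1 _ hx _ h10 (fun h' => by
            have := congrArg Prod.snd h'
            simp only at this
            omega) with h11 | ⟨h11, _⟩
          · exact h11 rfl
          · omega
        simp [h9, h]
    · refine Or.inr (Or.inr (Or.inl ⟨h6, ?_⟩))
      have h8 : x.2 ≤ 1 := by
        have hxB' := hxB
        rw [hxe] at hxB'
        exact hI.yb q _ _ h6 hxB'
      have : x.2 = 0 ∨ x.2 = 1 := by omega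
      have hfx := hall x hx
      rcases this with h | h
      · simp only [f, if_pos h6, if_pos h] at hfx
        have : τ x.1 = true := by
          cases h' : τ x.1
          · rw [h'] at hfx; simp at hfx
          · rfl
        simp [this, h]
      · have hne : x.2 ≠ 0 := by omega
        simp only [f, if_pos h6, if_neg hne, if_pos h] at hfx
        simp [hfx, h]
  · exact hI.own

/-- The colours of the last two vertices of a path in the special case. -/
def f2Y (s0 s1 s3 : Bool) : Bool := s0 || (s1 && !s3)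

/-- The colours of the last two vertices of a path in the special case. -/
def f3Y (s0 s1 s2 : Bool) : Bool := !s1 && s0 && s2

theorem fact_spec1 : ∀ s0 s1 s2 s3 t0 t1 t2 t3 : Bool,
    mc s0 s1 s2 s3 t0 t1 t2 t3 = true →
    ((t0 && t1) || (t0 && t2) || (t0 && t3) || (t1 && t2) || (t1 && t3) || (t2 && t3)) = true →
    ∀ c : Bool, ((t0 && (false == c)) || (t1 && (true == c)) || (t2 && (f2Y s0 s1 s3 == c)) ||
      (t3 && (f3Y s0 s1 s2 == c))) = true := by
  decide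

theorem fact_spec2 : ∀ s0 s1 s2 s3 b0 b1 : Bool, !(b0 && b1) → ∃ c : Bool,
    ∀ t0 t1 t2 t3 : Bool, mc (s0 && !b0) (s1 && !b1) s2 s3 t0 t1 t2 t3 = true →
    (t0 || t1 || t2 || t3) = true →
    ((t0 && (false == c)) || (t1 && (true == c)) || (t2 && (f2Y s0 s1 s3 == c)) ||
      (t3 && (f3Y s0 s1 s2 == c))) = true := by
  decide

/-- **The case of a single block of type `2` without its connectors.** -/
theorem good_special (hI : Inst N ty Bl) {s : Set U} (hs : s ⊆ Valid N ty) (a : ℕ)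
    (ha2 : ty a = 2) (honly : ∀ x ∈ PL s, x.1 = a)
    (hno : ∀ q, (a = q ∨ a = q + 1) → vC q ∉ s) : ∃ c : U → Bool, GoodOn (R ty Bl) s c := by
  classical
  let S : ℕ → Bool := fun i => decide (vL (a, i) ∈ s)
  let f : ℕ × ℕ → Bool := fun x => if ty x.1 = 2 then
    (if x.2 = 0 then false else if x.2 = 1 then true else
      if x.2 = 2 then f2Y (S 0) (S 1) (S 3) else f3Y (S 0) (S 1) (S 2)) else false
  have e0 : f (a, 0) = false := by simp [f, ha2]
  have e1 : f (a, 1) = true := by simp [f, ha2]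
  have e2 : f (a, 2) = f2Y (S 0) (S 1) (S 3) := by simp [f, ha2]
  have e3 : f (a, 3) = f3Y (S 0) (S 1) (S 2) := by simp [f, ha2]
  have hle : ∀ i, (a, i) ∈ PL s → i ≤ 3 := by
    intro i hi
    have := (valid_L hs hi).2
    unfold okV at this
    simp only at this
    omega
  apply good_of_f hs f
  · intro x hx
    have h1 : ¬ ty x.1 = 2 := by rw [hx]; decide
    have h2 : ¬ ty (opp x).1 = 2 := by simp only [opp]; rw [hx]; decide
    simp only [f, if_neg h1, if_neg h2]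
  · intro p hp
    simp [f, hp]
  · intro q hq
    have hb2 : ¬ Bl q (a, 2) := fun h => by
      have := hI.yb q _ _ ha2 h
      omega
    have hb3 : ¬ Bl q (a, 3) := fun h => by
      have := hI.yb q _ _ ha2 h
      omega
    obtain ⟨c, hc⟩ := fact_spec2 (S 0) (S 1) (S 2) (S 3) (decide (Bl q (a, 0)))
      (decide (Bl q (a, 1))) (by
        have := hI.yb2 q a ha2
        simp only [Bool.not_eq_true', Bool.and_eq_false_iff, decide_eq_false_iff_not]
        exact not_and_or.1 this)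
    refine ⟨!c, ?_, ?_⟩
    · intro x hx
      have h1 := (valid_A hs hx.2.2.1).2
      rw [honly x hx.1] at h1
      exact absurd hx.2.1 (hno q h1)
    · rintro T hT ⟨w, hw⟩
      have h1 := mc_of_maxC hT ha2 (fun i hi => hle i hi.1)
        (fun i => S i && !decide (Bl q (a, i)))
        (fun i => decide ((a, i) ∈ T)) (fun i => by simp [PL, S]) (fun i => by simp)
      have g2 : (S 2 && !decide (Bl q (a, 2))) = S 2 := by simp [hb2]
      have g3 : (S 3 && !decide (Bl q (a, 3))) = S 3 := by simp [hb3]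
      rw [g2, g3] at h1
      have h2 := hc _ _ _ _ h1 (by
        have hw1 := honly w (hT.1 hw).1
        have hw3 : w = (a, w.2) := by rw [← hw1]
        rw [hw3] at hw
        have hwl := hle _ (hT.1 hw).1
        have hcase : w.2 = 0 ∨ w.2 = 1 ∨ w.2 = 2 ∨ w.2 = 3 := by omega
        rcases hcase with h | h | h | h <;> rw [h] at hw <;> simp [hw])
      simp only [Bool.or_eq_true, Bool.and_eq_true, decide_eq_true_eq, beq_iff_eq] at h2
      rcases h2 with ((⟨h3, h4⟩ | ⟨h3, h4⟩) | ⟨h3, h4⟩) | ⟨h3, h4⟩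
      · exact ⟨_, h3, by rw [e0, h4]; cases c <;> simp⟩
      · exact ⟨_, h3, by rw [e1, h4]; cases c <;> simp⟩
      · exact ⟨_, h3, by rw [e2, h4]; cases c <;> simp⟩
      · exact ⟨_, h3, by rw [e3, h4]; cases c <;> simp⟩
  · rintro T hT ⟨x, hx, y, hy, hxy⟩ _
    have h1 := mc_of_maxC hT ha2 hle S
        (fun i => decide ((a, i) ∈ T)) (fun i => by simp [PL, S]) (fun i => by simp)
    have hx1 := honly x (hT.1 hx)
    have hy1 := honly y (hT.1 hy)
    have hx3 : x = (a, x.2) := by rw [← hx1]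
    have hy3 : y = (a, y.2) := by rw [← hy1]
    have hne : x.2 ≠ y.2 := by
      intro h
      apply hxy
      rw [hx3, hy3, h]
    rw [hx3] at hx
    rw [hy3] at hy
    have hxl := hle _ (hT.1 hx)
    have hyl := hle _ (hT.1 hy)
    have h2 := fact_spec1 _ _ _ _ _ _ _ _ h1 (by
      have hcx : x.2 = 0 ∨ x.2 = 1 ∨ x.2 = 2 ∨ x.2 = 3 := by omega
      have hcy : y.2 = 0 ∨ y.2 = 1 ∨ y.2 = 2 ∨ y.2 = 3 := by omega
      rcases hcx with h | h | h | h <;> rcases hcy with h' | h' | h' | h' <;>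
        rw [h] at hx hne <;> rw [h'] at hy hne <;>
        first | exact absurd rfl hne | simp [hx, hy])
    have key : ∀ c : Bool, ∃ z ∈ T, f z = c := by
      intro c
      have h3 := h2 c
      simp only [Bool.or_eq_true, Bool.and_eq_true, decide_eq_true_eq, beq_iff_eq] at h3
      rcases h3 with ((⟨h3, h4⟩ | ⟨h3, h4⟩) | ⟨h3, h4⟩) | ⟨h3, h4⟩
      · exact ⟨_, h3, by rw [e0, h4]⟩
      · exact ⟨_, h3, by rw [e1, h4]⟩
      · exact ⟨_, h3, by rw [e2, h4]⟩
      · exact ⟨_, h3, by rw [e3, h4]⟩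
    obtain ⟨z, hz, hz2⟩ := key true
    obtain ⟨w, hw, hw2⟩ := key false
    exact ⟨z, hz, w, hw, by rw [hz2, hw2]; decide⟩
  · exact hI.own

/-- **A false formula gives a graph all of whose induced subgraphs are two-colourable.** -/
theorem good_all (hI : Inst N ty Bl) {s : Set U} (hs : s ⊆ Valid N ty)
    (hF : ∀ σ : ℕ → Bool, ∃ τ : ℕ → Bool, ∀ ζ : ℕ → Bool, ∃ q, q < N ∧
      ∀ x, Bl q x → ¬ Sel ty σ τ ζ x) :
    ∃ c : U → Bool, GoodOn (R ty Bl) s c := by
  classical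
  by_cases hfull : (∀ p, p ≤ N → ActP ty s p) ∧ ∀ q, q < N → vC q ∈ s
  · exact good_full hI hs hF hfull.1 hfull.2
  by_cases hcut : ∃ q0, (∃ x ∈ PL s, x.1 ≤ q0) ∧ (∃ x ∈ PL s, q0 + 1 ≤ x.1) ∧
      (vC q0 ∉ s ∨ ¬ ActP ty s q0 ∨ ¬ ActP ty s (q0 + 1))
  · obtain ⟨q0, ⟨x, hx, hx0⟩, ⟨y, hy, hy0⟩, hq0⟩ := hcut
    refine good_rule hI hs (fun p => decide (p ≤ q0)) ?_ ?_
    · intro q u v hu hv
      have hu1 := (valid_A hs hu.2.2.1).2
      have hv1 := (valid_A hs hv.2.2.1).2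
      have hu2 := actP_of hs hu
      have hv2 := actP_of hs hv
      by_cases hq : q = q0
      · subst hq
        have huv : u.1 = v.1 := by
          rcases hq0 with h | h | h
          · exact absurd hu.2.1 h
          · have h3 : u.1 ≠ q := fun h' => h (h' ▸ hu2)
            have h4 : v.1 ≠ q := fun h' => h (h' ▸ hv2)
            omega
          · have h3 : u.1 ≠ q + 1 := fun h' => h (h' ▸ hu2)
            have h4 : v.1 ≠ q + 1 := fun h' => h (h' ▸ hv2)
            omega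
        rw [huv]
      · have : u.1 ≤ q0 ↔ v.1 ≤ q0 := by omega
        simp only [this]
    · intro T _ _ _
      refine ⟨x, hx, y, hy, ?_⟩
      have h1 : decide (x.1 ≤ q0) = true := by simp [hx0]
      have h2 : decide (y.1 ≤ q0) = false := by
        rw [decide_eq_false_iff_not]; omega
      simp only [h1, h2]
      decide
  · have hcut' : ∀ q0, (∃ x ∈ PL s, x.1 ≤ q0) → (∃ x ∈ PL s, q0 + 1 ≤ x.1) →
        vC q0 ∈ s ∧ ActP ty s q0 ∧ ActP ty s (q0 + 1) := by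
      intro q0 h1 h2
      by_contra hcon
      apply hcut
      refine ⟨q0, h1, h2, ?_⟩
      by_contra hcon2
      push Not at hcon2
      exact hcon hcon2
    by_cases hP : ∃ x ∈ PL s, ∃ y ∈ PL s, x.1 ≠ y.1
    · refine good_rule hI hs (fun _ => false) (fun _ _ _ _ _ => rfl) ?_
      intro T hT hnt hq
      exfalso
      obtain ⟨x, hx, y, hy, hxy⟩ := hP
      have hfin : ({p | ∃ x ∈ PL s, x.1 = p} : Set ℕ).Finite := by
        apply (Set.finite_Iic N).subset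
        rintro p ⟨w, hw, rfl⟩
        exact (valid_L hs hw).1
      have hne : ({p | ∃ x ∈ PL s, x.1 = p} : Set ℕ).Nonempty := ⟨x.1, x, hx, rfl⟩
      obtain ⟨a, ⟨xa, hxa, hxa2⟩, hmin⟩ := Set.exists_min_image _ id hfin hne
      obtain ⟨z, ⟨xz, hxz, hxz2⟩, hmax⟩ := Set.exists_max_image _ id hfin hne
      simp only [id_eq] at hmin hmax
      have h1 := hmin x.1 ⟨x, hx, rfl⟩
      have h2 := hmin y.1 ⟨y, hy, rfl⟩
      have h3 := hmax x.1 ⟨x, hx, rfl⟩
      have h4 := hmax y.1 ⟨y, hy, rfl⟩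
      have haz : a < z := by omega
      have hzN : z ≤ N := by rw [← hxz2]; exact (valid_L hs hxz).1
      have hcut2 : ∀ q, a ≤ q → q < z → vC q ∈ s ∧ ActP ty s q ∧ ActP ty s (q + 1) := by
        intro q hq1 hq2
        exact hcut' q ⟨xa, hxa, by omega⟩ ⟨xz, hxz, by omega⟩
      by_cases hends : a = 0 ∧ z = N
      · apply hfull
        refine ⟨?_, ?_⟩
        · intro p hp
          by_cases hp0 : p < N
          · exact (hcut2 p (by omega) (by omega)).2.1
          · have hpN : p = N - 1 + 1 := by omega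
            rw [hpN]
            exact (hcut2 (N - 1) (by omega) (by omega)).2.2
        · intro q hqN
          exact (hcut2 q (by omega) (by omega)).1
      · obtain ⟨q, hq1, hq2, hq3⟩ := hI.guard a z haz hzN hends
        obtain ⟨w, hw, hwB⟩ := hq q (hcut2 q hq1 hq2).1
        exact hq3 w (hmin _ ⟨w, hT.1 hw, rfl⟩) (hmax _ ⟨w, hT.1 hw, rfl⟩) hwB
    · push Not at hP
      by_cases hsp : ∃ a, ty a = 2 ∧ (∀ x ∈ PL s, x.1 = a) ∧
          ∀ q, (a = q ∨ a = q + 1) → vC q ∉ s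
      · obtain ⟨a, h1, h2, h3⟩ := hsp
        exact good_special hI hs a h1 h2 h3
      · refine good_rule hI hs (fun _ => false) (fun _ _ _ _ _ => rfl) ?_
        intro T hT ⟨x, hx, y, hy, hxy⟩ hq
        exfalso
        have hxy1 := hP x (hT.1 hx) y (hT.1 hy)
        have hty : ty x.1 = 2 := by
          rcases hT.2.1 x hx y hy hxy with h | h
          · exact absurd hxy1 h
          · exact h.1
        apply hsp
        refine ⟨x.1, hty, fun w hw => hP w hw x (hT.1 hx), ?_⟩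
        intro q hq1 hq2
        obtain ⟨w, hw, hwB⟩ := hq q hq2
        have h5 := hI.own _ _ hwB
        have h6 := hP w (hT.1 hw) x (hT.1 hx)
        omega

end Pool.Agent.Zk96.SD
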